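import Pool.Agent.Y817.ISO.Stm

set_option autoImplicit false

/-!
Project ISO (S14615): the part AMUP.
-/

namespace Pool.Agent.R702.ISO

open Pool.Agent.Y817.ISO

/-- the homomorphism of the cyclic group of order five -/
def c5Hom {H : Type} [Group H] (c : H) (hc : c ^ 5 = 1) : Multiplicative (ZMod 5) →* H where
  toFun x := c ^ (x.toAdd.val)
  map_one' := by
    show c ^ ((0 : ZMod 5).val) = 1
    simp
  map_mul' x y := by
    show c ^ ((x.toAdd + y.toAdd).val) = c ^ (x.toAdd.val) * c ^ (y.toAdd.val)
    rw [ZMod.val_add, ← pow_add, ← pow_eq_pow_mod _ hc]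

theorem c5Hom_gen {H : Type} [Group H] (c : H) (hc : c ^ 5 = 1) :
    c5Hom c hc (Multiplicative.ofAdd 1) = c := by
  show c ^ ((1 : ZMod 5).val) = c
  have : (1 : ZMod 5).val = 1 := rfl
  rw [this, pow_one]

theorem c5_gen (x : Multiplicative (ZMod 5)) :
    x = (Multiplicative.ofAdd (1 : ZMod 5)) ^ (x.toAdd.val) := by
  rw [← ofAdd_nsmul]
  apply Multiplicative.toAdd.injective
  simp

theorem amUP : StmAmUP := by
  intro E U _ _ β
  let ο : U →* Amal β := Monoid.PushoutI.of (φ := famHom β) false
  let κ : (E × Multiplicative (ZMod 5)) →* Amal β := Monoid.PushoutI.of (φ := famHom β) true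
  let c : Amal β := κ (1, Multiplicative.ofAdd 1)
  have hκ : ∀ e, κ (e, 1) = ο (β e) := by
    intro e
    have h1 := Monoid.PushoutI.of_apply_eq_base (famHom β) true e
    have h2 := Monoid.PushoutI.of_apply_eq_base (famHom β) false e
    exact h1.trans h2.symm
  refine ⟨ο, c, ?_, ?_, ?_, ?_⟩
  · show (κ (1, Multiplicative.ofAdd 1)) ^ 5 = 1
    rw [← map_pow]
    have : ((1 : E), (Multiplicative.ofAdd 1 : Multiplicative (ZMod 5))) ^ 5 = 1 := by
      rw [Prod.pow_mk, one_pow]
      have h5 : (Multiplicative.ofAdd 1 : Multiplicative (ZMod 5)) ^ 5 = 1 := by decide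
      rw [h5]
      rfl
    rw [this, map_one]
  · intro e
    show c * ο (β e) = ο (β e) * c
    rw [← hκ]
    show κ _ * κ _ = κ _ * κ _
    rw [← map_mul, ← map_mul]
    simp
  · rw [eq_top_iff]
    intro x _
    have ho : ∀ u, ο u ∈ Subgroup.closure (Set.range ο ∪ {c}) := fun u =>
      Subgroup.subset_closure (Or.inl ⟨u, rfl⟩)
    have hc : c ∈ Subgroup.closure (Set.range ο ∪ {c}) := Subgroup.subset_closure (Or.inr rfl)
    have hk : ∀ y, κ y ∈ Subgroup.closure (Set.range ο ∪ {c}) := by
      rintro ⟨e, y⟩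
      have h1 : ((e, y) : E × Multiplicative (ZMod 5)) =
          (e, 1) * (1, Multiplicative.ofAdd 1) ^ (y.toAdd.val) := by
        rw [Prod.pow_mk, one_pow, Prod.mk_mul_mk, mul_one, one_mul, ← c5_gen]
      rw [h1, map_mul, map_pow, hκ]
      exact Subgroup.mul_mem _ (ho _) (Subgroup.pow_mem _ hc _)
    induction x using Monoid.PushoutI.induction_on with
    | of i g =>
      cases i with
      | false => exact ho g
      | true => exact hk g
    | base h =>
      have h2 := Monoid.PushoutI.of_apply_eq_base (famHom β) false h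
      rw [← h2]
      exact ho _
    | mul x y hx hy => exact Subgroup.mul_mem _ (hx trivial) (hy trivial)
  · intro H _ φ c' hc' hcomm
    have hcm : ∀ (m : E) (n : Multiplicative (ZMod 5)),
        Commute ((φ.comp β) m) (c5Hom c' hc' n) := by
      intro m n
      exact ((hcomm m).symm).pow_right _
    let F : ∀ b, Fam E U b →* H := fun b => match b with
      | false => φ
      | true => MonoidHom.noncommCoprod (φ.comp β) (c5Hom c' hc') hcm
    have hF : ∀ b, (F b).comp (famHom β b) = φ.comp β := by
      intro b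
      cases b with
      | false => rfl
      | true =>
        ext e
        show MonoidHom.noncommCoprod (φ.comp β) (c5Hom c' hc') hcm (e, 1) = _
        rw [MonoidHom.noncommCoprod_apply, map_one, mul_one]
    refine ⟨Monoid.PushoutI.lift F (φ.comp β) hF, ?_, ?_⟩
    · intro x
      exact Monoid.PushoutI.lift_of (φ := famHom β) F (φ.comp β) hF (i := false) x
    · have h1 := Monoid.PushoutI.lift_of (φ := famHom β) F (φ.comp β) hF (i := true)
        ((1 : E), (Multiplicative.ofAdd 1 : Multiplicative (ZMod 5)))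
      refine h1.trans ?_
      show MonoidHom.noncommCoprod (φ.comp β) (c5Hom c' hc') hcm (1, Multiplicative.ofAdd 1) = _
      rw [MonoidHom.noncommCoprod_apply, map_one, one_mul, c5Hom_gen]

end Pool.Agent.R702.ISO
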