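import Pool.Agent.Y817.ISO.Stm

set_option autoImplicit false

/-!
Project ISO (S14615): the part BASE.
-/

namespace Pool.Agent.R702.ISO

open Pool.Agent.Y817.ISO

theorem act_of {P J : Type} (v : Multiplicative (J → ℤ)) (p : P) (w : J → ℤ) :
    act P J v (FreeGroup.of (p, w)) = FreeGroup.of (p, w - v.toAdd) := by
  show FreeGroup.freeGroupCongr (tr P J v.toAdd) (FreeGroup.of (p, w)) = _
  rw [FreeGroup.freeGroupCongr_apply, FreeGroup.map.of]
  rfl

theorem T_eq {P J : Type} (p : P) (v : J → ℤ) :
    T (X0 P J) (t0 : P → G0 P J) p v = SemidirectProduct.inl (FreeGroup.of (p, v)) := by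
  unfold T X0 t0
  have h := SemidirectProduct.inl_aut (φ := act P J) (Multiplicative.ofAdd v)⁻¹
    (FreeGroup.of (p, (0 : J → ℤ)))
  have e : (0 : J → ℤ) - Multiplicative.toAdd (Multiplicative.ofAdd v)⁻¹ = v := by
    simp
  rw [act_of, inv_inv, e] at h
  rw [h, ← map_inv]

theorem base : StmBase := by
  intro P J _
  refine ⟨?_, ?_, ?_, ?_⟩
  · intro x hx
    have hr : x.right = 1 := by
      have h1 : IsOfFinOrder (SemidirectProduct.rightHom x) :=
        MonoidHom.isOfFinOrder SemidirectProduct.rightHom hx
      obtain ⟨n, hn, h2⟩ := isOfFinOrder_iff_pow_eq_one.1 h1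
      have h3 : n • (x.right.toAdd) = 0 := h2
      have h4 : x.right.toAdd = 0 := by
        funext j
        have h5 := congrFun h3 j
        simp only [Pi.smul_apply, Pi.zero_apply, smul_eq_zero] at h5
        rcases h5 with h5 | h5
        · omega
        · exact h5
      exact h4
    have hx2 : x = SemidirectProduct.inl x.left := by
      apply SemidirectProduct.ext
      · simp
      · simpa using hr
    rw [hx2] at hx ⊢
    have h1 : IsOfFinOrder x.left :=
      (Function.Injective.isOfFinOrder_iff (SemidirectProduct.inl_injective)).1 hx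
    have h2 : x.left = 1 := by
      by_contra hne
      exact not_isOfFinOrder_of_isMulTorsionFree hne h1
    rw [h2, map_one]
  · rw [eq_top_iff]
    intro x _
    have hX : ∀ v : Multiplicative (J → ℤ), X0 P J v ∈
        Subgroup.closure (Set.range (X0 P J) ∪ Set.range (t0 : P → G0 P J)) :=
      fun v => Subgroup.subset_closure (Or.inl ⟨v, rfl⟩)
    have ht : ∀ p : P, (t0 p : G0 P J) ∈
        Subgroup.closure (Set.range (X0 P J) ∪ Set.range (t0 : P → G0 P J)) :=
      fun p => Subgroup.subset_closure (Or.inr ⟨p, rfl⟩)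
    have hT : ∀ (p : P) (v : J → ℤ), SemidirectProduct.inl (FreeGroup.of (p, v)) ∈
        Subgroup.closure (Set.range (X0 P J) ∪ Set.range (t0 : P → G0 P J)) := by
      intro p v
      rw [← T_eq]
      exact Subgroup.mul_mem _ (Subgroup.mul_mem _ (Subgroup.inv_mem _ (hX _)) (ht p)) (hX _)
    have hL : ∀ y : FreeGroup (P × (J → ℤ)), SemidirectProduct.inl y ∈
        Subgroup.closure (Set.range (X0 P J) ∪ Set.range (t0 : P → G0 P J)) := by
      intro y
      induction y using FreeGroup.induction_on with
      | C1 => rw [map_one]; exact Subgroup.one_mem _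
      | of a => exact hT a.1 a.2
      | inv_of a ha => rw [map_inv]; exact Subgroup.inv_mem _ ha
      | mul a b ha hb => rw [map_mul]; exact Subgroup.mul_mem _ ha hb
    rw [← SemidirectProduct.inl_left_mul_inr_right x]
    exact Subgroup.mul_mem _ (hL _) (hX _)
  · intro H _ X t
    have hc : ∀ g : Multiplicative (J → ℤ),
        (FreeGroup.lift (fun a : P × (J → ℤ) => T X t a.1 a.2)).comp (act P J g).toMonoidHom =
        (MulAut.conj (X g)).toMonoidHom.comp
          (FreeGroup.lift (fun a : P × (J → ℤ) => T X t a.1 a.2)) := by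
      intro g
      apply FreeGroup.ext_hom
      rintro ⟨p, v⟩
      have h1 : (act P J g).toMonoidHom (FreeGroup.of (p, v)) =
        FreeGroup.of (p, v - g.toAdd) := act_of g p v
      rw [MonoidHom.comp_apply, h1, FreeGroup.lift_apply_of, MonoidHom.comp_apply,
        FreeGroup.lift_apply_of]
      show T X t p (v - g.toAdd) = (MulAut.conj (X g)) (T X t p v)
      rw [MulAut.conj_apply]
      unfold T
      rw [ofAdd_sub, ofAdd_toAdd, map_div, div_eq_mul_inv]
      simp only [mul_inv_rev, inv_inv, mul_assoc]
    refine ⟨SemidirectProduct.lift _ X hc, ?_, ?_⟩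
    · intro v
      exact SemidirectProduct.lift_inr _ _ _ v
    · intro p
      show SemidirectProduct.lift _ X hc (SemidirectProduct.inl (FreeGroup.of (p, 0))) = t p
      rw [SemidirectProduct.lift_inl, FreeGroup.lift_apply_of]
      simp [T]
  · intro d μ hμ p a
    let fn : FreeGroup (Unit × (Fin d → ℤ)) →* FreeGroup (P × (J → ℤ)) :=
      FreeGroup.map (fun x => (p, μ x.2 + a))
    let fg : Multiplicative (Fin d → ℤ) →* Multiplicative (J → ℤ) :=
      AddMonoidHom.toMultiplicative μ
    have hc : ∀ g : Multiplicative (Fin d → ℤ), fn.comp (act Unit (Fin d) g).toMonoidHom =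
        (act P J (fg g)).toMonoidHom.comp fn := by
      intro g
      apply FreeGroup.ext_hom
      rintro ⟨q, v⟩
      have h1 : (act Unit (Fin d) g).toMonoidHom (FreeGroup.of (q, v)) =
        FreeGroup.of (q, v - g.toAdd) := act_of g q v
      rw [MonoidHom.comp_apply, h1, MonoidHom.comp_apply]
      show FreeGroup.map _ _ = act P J (fg g) (FreeGroup.map _ _)
      rw [FreeGroup.map.of, FreeGroup.map.of, act_of]
      congr 2
      show μ (v - g.toAdd) + a = μ v + a - μ g.toAdd
      rw [map_sub]
      abel
    refine ⟨SemidirectProduct.map fn fg hc, ?_, ?_, ?_⟩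
    · intro x y hxy
      have h1 := congrArg SemidirectProduct.left hxy
      have h2 := congrArg SemidirectProduct.right hxy
      simp only [SemidirectProduct.map_left, SemidirectProduct.map_right] at h1 h2
      apply SemidirectProduct.ext
      · refine FreeGroup.map_injective ?_ h1
        rintro ⟨⟨⟩, u⟩ ⟨⟨⟩, v⟩ h
        simp only [Prod.mk.injEq, true_and, add_left_inj] at h
        rw [hμ h]
      · exact hμ h2
    · intro w
      exact SemidirectProduct.map_inr _ _ _ _
    · rw [T_eq]
      show SemidirectProduct.map fn fg hc (SemidirectProduct.inl (FreeGroup.of ((), 0))) = _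
      rw [SemidirectProduct.map_inl]
      show SemidirectProduct.inl (FreeGroup.map _ _) = _
      rw [FreeGroup.map.of, map_zero, zero_add]

end Pool.Agent.R702.ISO
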