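import Pool.Agent.R702.ISO.Tower

set_option autoImplicit false

/-!
Project ISO (S14615): the groups `B_g`.
-/

namespace Pool.Agent.R702.ISO

open Pool.Agent.Y817.ISO
open HNNExtension

/-- the generator `z` -/
def bz (g : ℤ) : Bg g := of (Multiplicative.ofAdd 1)

theorem of_eq_bz (g : ℤ) (k : Multiplicative ℤ) : (of k : Bg g) = bz g ^ k.toAdd := by
  unfold bz
  rw [← map_zpow, ← ofAdd_zsmul]
  simp

theorem bg_lift (g : ℤ) {H : Type} [Group H] (z' t' : H) (h : Commute t' (z' ^ g)) :
    ∃ Φ : Bg g →* H, Φ (bz g) = z' ∧ Φ t = t' := by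
  obtain ⟨Φ, h1, h2⟩ := exLift (MulEquiv.refl (Subgroup.zpowers (Multiplicative.ofAdd g)))
    (zpowersHom H z') t' (by
      rintro ⟨a, ha⟩
      obtain ⟨k, rfl⟩ := Subgroup.mem_zpowers_iff.1 ha
      show t' * z' ^ (Multiplicative.toAdd ((Multiplicative.ofAdd g) ^ k)) =
        z' ^ (Multiplicative.toAdd ((Multiplicative.ofAdd g) ^ k)) * t'
      have e : Multiplicative.toAdd ((Multiplicative.ofAdd g) ^ k) = g * k := by
        rw [toAdd_zpow, toAdd_ofAdd, smul_eq_mul, mul_comm]
      rw [e, zpow_mul]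
      exact (h.zpow_right k).eq)
  refine ⟨Φ, ?_, h2⟩
  rw [bz, h1]
  simp

theorem bg_ext {g : ℤ} {H : Type} [Group H] {Φ Ψ : Bg g →* H} (hz : Φ (bz g) = Ψ (bz g))
    (ht : Φ t = Ψ t) : Φ = Ψ := by
  apply HNNExtension.hom_ext
  · apply MonoidHom.ext_mint
    exact hz
  · exact ht

theorem bg_central (g : ℤ) (e : Bg g) : Commute (bz g ^ g) e := by
  have h : (MulAut.conj (bz g ^ g)).toMonoidHom = MonoidHom.id (Bg g) := by
    apply bg_ext
    · show bz g ^ g * bz g * (bz g ^ g)⁻¹ = bz g
      group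
    · show bz g ^ g * t * (bz g ^ g)⁻¹ = t
      have h1 : (t : Bg g) * of (Multiplicative.ofAdd g) = of (Multiplicative.ofAdd g) * t :=
        comm_t (Subgroup.mem_zpowers _)
      rw [of_eq_bz, toAdd_ofAdd] at h1
      rw [← h1, mul_inv_cancel_right]
  have h1 : bz g ^ g * e * (bz g ^ g)⁻¹ = e := DFunLike.congr_fun h e
  show bz g ^ g * e = e * bz g ^ g
  rw [mul_inv_eq_iff_eq_mul] at h1
  exact h1

theorem ar_symm (a x : ℤ) : (Equiv.addRight a).symm x = x - a := by
  rw [Equiv.symm_apply_eq]
  simp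

/-- the shift -/
noncomputable def shAct (n : ℕ) : Multiplicative ℤ →* MulAut (Multiplicative (ℤ →₀ ZMod n)) where
  toFun k := AddEquiv.toMultiplicative (Finsupp.domCongr (Equiv.addRight k.toAdd))
  map_one' := by
    apply MulEquiv.ext
    intro f
    apply Multiplicative.toAdd.injective
    apply Finsupp.ext
    intro x
    show (f.toAdd) ((Equiv.addRight (0 : ℤ)).symm x) = f.toAdd x
    rw [ar_symm, sub_zero]
  map_mul' k l := by
    apply MulEquiv.ext
    intro f
    apply Multiplicative.toAdd.injective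
    apply Finsupp.ext
    intro x
    show (f.toAdd) ((Equiv.addRight (k.toAdd + l.toAdd)).symm x) =
      f.toAdd ((Equiv.addRight l.toAdd).symm ((Equiv.addRight k.toAdd).symm x))
    rw [ar_symm, ar_symm, ar_symm]
    congr 1
    ring

theorem shAct_apply (n : ℕ) (k : Multiplicative ℤ) (f : Multiplicative (ℤ →₀ ZMod n)) (x : ℤ) :
    (shAct n k f).toAdd x = f.toAdd (x - k.toAdd) := by
  show (f.toAdd) ((Equiv.addRight (k.toAdd)).symm x) = _
  rw [ar_symm]

/-- the lamplighter group -/
abbrev LA (n : ℕ) : Type := Multiplicative (ℤ →₀ ZMod n) ⋊[shAct n] Multiplicative ℤ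

/-- the sum of the lamps -/
noncomputable def sumH (n : ℕ) : LA n →* Multiplicative (ZMod n) :=
  SemidirectProduct.lift
    (AddMonoidHom.toMultiplicative (Finsupp.liftAddHom (fun _ : ℤ => AddMonoidHom.id (ZMod n)))) 1
    (by
      intro k
      apply MonoidHom.ext
      intro f
      simp only [MonoidHom.comp_apply, MonoidHom.one_apply, map_one]
      apply Multiplicative.toAdd.injective
      show (Finsupp.liftAddHom (fun _ : ℤ => AddMonoidHom.id (ZMod n)))
        (Finsupp.domCongr (Equiv.addRight k.toAdd) f.toAdd) =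
        (Finsupp.liftAddHom (fun _ : ℤ => AddMonoidHom.id (ZMod n))) f.toAdd
      rw [Finsupp.liftAddHom_apply, Finsupp.liftAddHom_apply]
      show (Finsupp.equivMapDomain _ _).sum _ = _
      rw [Finsupp.equivMapDomain_eq_mapDomain, Finsupp.sum_mapDomain_index]
      · intro _; rfl
      · intro _ _ _; rfl)

/-- central elements of `B_g` have exponent sums divisible by `g` -/
theorem bg_dvd (g : ℤ) (n : ℕ) (hgn : g = n) (hn : 2 ≤ n) (e : Bg g) (he : ∀ e', Commute e e')
    (χ : Bg g →* Multiplicative ℤ) : g ∣ (χ e).toAdd := by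
  have : Fact (1 < n) := ⟨by omega⟩
  let zz : LA n := SemidirectProduct.inl (Multiplicative.ofAdd (Finsupp.single 0 1))
  let tt : LA n := SemidirectProduct.inr (Multiplicative.ofAdd 1)
  have hzz : zz ^ g = 1 := by
    rw [hgn, zpow_natCast, ← map_pow, ← ofAdd_nsmul]
    have : n • (Finsupp.single 0 1 : ℤ →₀ ZMod n) = 0 := by
      ext x
      simp
    rw [this]
    simp
  obtain ⟨Φ, hΦz, hΦt⟩ := bg_lift g zz tt (by rw [hzz]; exact Commute.one_right _)
  obtain ⟨I, hIz, hIt⟩ := bg_lift g (Multiplicative.ofAdd (1 : ℤ)) (1 : Multiplicative ℤ)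
    (Commute.one_left _)
  obtain ⟨J, hJz, hJt⟩ := bg_lift g (1 : Multiplicative ℤ) (Multiplicative.ofAdd (1 : ℤ))
    (by rw [one_zpow]; exact Commute.one_right _)
  -- the two coordinates
  have hJ : SemidirectProduct.rightHom.comp Φ = J := by
    apply bg_ext
    · rw [MonoidHom.comp_apply, hΦz, hJz]
      simp [zz]
    · rw [MonoidHom.comp_apply, hΦt, hJt]
      simp [tt]
  have hI : (sumH n).comp Φ = (AddMonoidHom.toMultiplicative (Int.castAddHom (ZMod n))).comp I := by
    apply bg_ext
    · rw [MonoidHom.comp_apply, hΦz, MonoidHom.comp_apply, hIz]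
      show sumH n (SemidirectProduct.inl _) = _
      rw [sumH, SemidirectProduct.lift_inl]
      apply Multiplicative.toAdd.injective
      show (Finsupp.liftAddHom (fun _ : ℤ => AddMonoidHom.id (ZMod n))) (Finsupp.single 0 1) =
        ((1 : ℤ) : ZMod n)
      rw [Finsupp.liftAddHom_apply_single]
      simp
    · rw [MonoidHom.comp_apply, hΦt, MonoidHom.comp_apply, hIt, map_one]
      show sumH n (SemidirectProduct.inr _) = _
      rw [sumH, SemidirectProduct.lift_inr]
      rfl
  have hχ : ∀ e, χ e = (χ (bz g)) ^ (I e).toAdd * (χ t) ^ (J e).toAdd := by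
    let Ψ : Bg g →* Multiplicative ℤ :=
      ((zpowersHom _ (χ (bz g))).comp I) * ((zpowersHom _ (χ t)).comp J)
    have : χ = Ψ := by
      apply bg_ext
      · show χ (bz g) = (χ (bz g)) ^ (I (bz g)).toAdd * (χ t) ^ (J (bz g)).toAdd
        rw [hIz, hJz]
        simp
      · show χ t = (χ (bz g)) ^ (I t).toAdd * (χ t) ^ (J t).toAdd
        rw [hIt, hJt]
        simp
    intro e
    exact DFunLike.congr_fun this e
  -- the commutation relations
  have c1 : Φ e * zz = zz * Φ e := by
    rw [← hΦz, ← map_mul, ← map_mul, (he (bz g)).eq]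
  have c2 : Φ e * tt = tt * Φ e := by
    rw [← hΦt, ← map_mul, ← map_mul, (he t).eq]
  rcases hfe : Φ e with ⟨f, j⟩
  rw [hfe] at c1 c2
  have hj : j = 1 := by
    have h1 := congrArg (fun y : LA n => (y.left.toAdd : ℤ →₀ ZMod n) j.toAdd) c1
    simp only [SemidirectProduct.mul_left, zz, SemidirectProduct.left_inl,
      SemidirectProduct.right_inl, map_one, MulAut.one_apply, toAdd_mul, Finsupp.add_apply,
      shAct_apply, toAdd_ofAdd, sub_self, Finsupp.single_eq_same] at h1
    rw [add_comm, add_left_inj] at h1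
    by_contra hne
    have : j.toAdd ≠ 0 := hne
    rw [Finsupp.single_eq_of_ne this] at h1
    exact one_ne_zero h1
  have hf : f.toAdd = 0 := by
    have h1 : ∀ x, f.toAdd (x - 1) = f.toAdd x := by
      intro x
      have h2 := congrArg (fun y : LA n => (y.left.toAdd : ℤ →₀ ZMod n) x) c2
      simp only [SemidirectProduct.mul_left, tt, SemidirectProduct.left_inr,
        SemidirectProduct.right_inr, map_one, toAdd_mul, Finsupp.add_apply,
        shAct_apply, toAdd_ofAdd, toAdd_one, Finsupp.coe_zero, Pi.zero_apply, add_zero,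
        zero_add] at h2
      exact h2.symm
    have h2 : ∀ x, f.toAdd x = f.toAdd 0 := by
      intro x
      induction x using Int.induction_on with
      | zero => rfl
      | succ k ih =>
        have := h1 (k + 1)
        rw [add_sub_cancel_right] at this
        rw [← this, ih]
      | pred k ih => rw [h1, ih]
    obtain ⟨x, hx⟩ := Infinite.exists_notMem_finset (f.toAdd.support)
    have h3 : f.toAdd x = 0 := by simpa using hx
    ext y
    rw [h2 y, ← h2 x, h3]
    rfl
  have hJe : J e = 1 := by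
    rw [← hJ, MonoidHom.comp_apply, hfe]
    exact hj
  have hIe : g ∣ (I e).toAdd := by
    have h1 := DFunLike.congr_fun hI e
    rw [MonoidHom.comp_apply, hfe] at h1
    have h2 : (⟨f, j⟩ : LA n) = 1 := by
      rw [hj]
      apply SemidirectProduct.ext
      · exact hf
      · rfl
    rw [h2, map_one] at h1
    have h3 : (0 : ZMod n) = (((I e).toAdd : ℤ) : ZMod n) := h1
    exact (dvd_of_eq hgn).trans ((ZMod.intCast_zmod_eq_zero_iff_dvd _ _).1 h3.symm)
  rw [hχ, hJe]
  simp only [toAdd_one, zpow_zero, mul_one, toAdd_zpow, smul_eq_mul]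
  exact Dvd.dvd.mul_right hIe _

end Pool.Agent.R702.ISO
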