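import Pool.Agent.Y817.ISO.Stm

set_option autoImplicit false

/-!
Project ISO (S14615): the part GMODEL.
-/

namespace Pool.Agent.R702.ISO

open Pool.Agent.Y817.ISO

section

variable (K : Type) [Group K] (Q : Subgroup K)

/-- rational functions on the cosets -/
abbrev VV : Type := (K ⧸ Q) → ℚ

/-- the action of an element of `K × ℚˣ` -/
def actE (h : K × ℚˣ) : Multiplicative (VV K Q) ≃* Multiplicative (VV K Q) where
  toFun f := Multiplicative.ofAdd (fun y => (h.2 : ℚ) * f.toAdd (h.1⁻¹ • y))
  invFun f := Multiplicative.ofAdd (fun y => ((h.2⁻¹ : ℚˣ) : ℚ) * f.toAdd (h.1 • y))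
  left_inv f := by
    apply Multiplicative.toAdd.injective
    funext y
    simp
  right_inv f := by
    apply Multiplicative.toAdd.injective
    funext y
    simp
  map_mul' f g := by
    apply Multiplicative.toAdd.injective
    funext y
    simp [mul_add]

/-- the action -/
def actM : K × ℚˣ →* MulAut (Multiplicative (VV K Q)) where
  toFun := actE K Q
  map_one' := by
    apply MulEquiv.ext
    intro f
    apply Multiplicative.toAdd.injective
    funext y
    simp [actE]
  map_mul' a b := by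
    apply MulEquiv.ext
    intro f
    apply Multiplicative.toAdd.injective
    funext y
    simp [actE, mul_smul, mul_assoc]

/-- the action as an additive map -/
def actA (h : K × ℚˣ) : VV K Q →+ VV K Q where
  toFun f := (actE K Q h (Multiplicative.ofAdd f)).toAdd
  map_zero' := by
    funext y
    simp [actE]
  map_add' f g := by
    funext y
    simp [actE, mul_add]

/-- the model -/
abbrev MM : Type := Multiplicative (VV K Q) ⋊[actM K Q] (K × ℚˣ)

variable {K Q}

/-- the function part -/
def LL (y : MM K Q) : VV K Q := y.left.toAdd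

theorem LL_mul (y y' : MM K Q) :
    LL (y * y') = LL y + (actE K Q y.right (Multiplicative.ofAdd (LL y'))).toAdd := rfl

theorem LL_one : LL (1 : MM K Q) = 0 := rfl

theorem LL_inv (y : MM K Q) :
    LL y⁻¹ = (actE K Q (y.right)⁻¹ (Multiplicative.ofAdd (- LL y))).toAdd := rfl

/-- a subgroup of the model -/
def SB (W : AddSubgroup (VV K Q)) (H : Subgroup (K × ℚˣ))
    (hWH : ∀ h ∈ H, ∀ f ∈ W, (actE K Q h (Multiplicative.ofAdd f)).toAdd ∈ W) :
    Subgroup (MM K Q) where
  carrier := {y | LL y ∈ W ∧ y.right ∈ H}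
  one_mem' := ⟨W.zero_mem, H.one_mem⟩
  mul_mem' := by
    rintro a b ⟨ha, ha'⟩ ⟨hb, hb'⟩
    refine ⟨?_, H.mul_mem ha' hb'⟩
    rw [LL_mul]
    exact W.add_mem ha (hWH _ ha' _ hb)
  inv_mem' := by
    rintro a ⟨ha, ha'⟩
    refine ⟨?_, H.inv_mem ha'⟩
    rw [LL_inv]
    exact hWH _ (H.inv_mem ha') _ (W.neg_mem ha)

theorem mem_SB (W : AddSubgroup (VV K Q)) (H : Subgroup (K × ℚˣ))
    (hWH : ∀ h ∈ H, ∀ f ∈ W, (actE K Q h (Multiplicative.ofAdd f)).toAdd ∈ W) (y : MM K Q) :
    y ∈ SB W H hWH ↔ LL y ∈ W ∧ y.right ∈ H := Iff.rfl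

end

/-- the unit one half -/
def hf : ℚˣ := Units.mk0 (1 / 2) (by norm_num)

theorem hf_zpow (j : ℤ) : hf ^ j = 1 → j = 0 := by
  intro h
  have h1 : ((hf ^ j : ℚˣ) : ℚ) = 1 := by rw [h]; rfl
  rw [Units.val_zpow_eq_zpow_val] at h1
  have h2 : ((1 / 2 : ℚ)) ^ j = 1 := h1
  rwa [zpow_eq_one_iff_right₀ (by norm_num) (by norm_num)] at h2

theorem s_conj {K : Type} [Group K] (x t : K) (k : ℤ) : x * (s x t k)⁻¹ = (s x t (k - 1))⁻¹ * x := by
  unfold s
  have h1 : x ^ (k - 1) * x = x ^ k := by
    rw [← zpow_add_one]; congr 1; ring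
  have h2 : x * x ^ (-k) = x ^ (-(k - 1)) := by
    rw [← zpow_one_add]; congr 1; ring
  simp only [mul_inv_rev, ← zpow_neg, neg_neg]
  rw [mul_assoc, mul_assoc, h1, ← mul_assoc, h2, ← mul_assoc]

theorem gmodel : StmGModel := by
  classical
  intro K _ Q Rr π x t hB
  let dl : K → VV K Q := fun k => Pi.single (QuotientGroup.mk k) 1
  let φ : K →* MM K Q := SemidirectProduct.inr.comp (MonoidHom.inl K ℚˣ)
  let z : MM K Q := SemidirectProduct.inl (Multiplicative.ofAdd (dl 1))
  let u : MM K Q := SemidirectProduct.inr ((1 : K), hf)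
  have hact : ∀ (k : K) (c : ℚˣ) (l : K) (a : ℚ),
      (actE K Q (k, c) (Multiplicative.ofAdd (a • dl l))).toAdd = ((c : ℚ) * a) • dl (k * l) := by
    intro k c l a
    funext y
    simp only [actE, dl, MulEquiv.coe_mk, Equiv.coe_fn_mk, toAdd_ofAdd, Pi.smul_apply, smul_eq_mul,
      Pi.single_apply, ← mul_assoc]
    congr 1
    refine if_congr ?_ rfl rfl
    rw [inv_smul_eq_iff]
    rfl
  -- the element `s⁻¹ z s`
  have hconj : ∀ (k : K) (a : ℤ), ((φ k)⁻¹ * z * φ k) ^ a =
      SemidirectProduct.inl (Multiplicative.ofAdd ((a : ℚ) • dl k⁻¹)) := by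
    intro k a
    have h1 : (φ k)⁻¹ * z * φ k = SemidirectProduct.inl (Multiplicative.ofAdd (dl k⁻¹)) := by
      have := SemidirectProduct.inl_aut (φ := actM K Q) ((k, 1)⁻¹ : K × ℚˣ)
        (Multiplicative.ofAdd (dl 1))
      have h2 : (actM K Q ((k, 1)⁻¹ : K × ℚˣ)) (Multiplicative.ofAdd (dl 1)) =
          Multiplicative.ofAdd (dl k⁻¹) := by
        have h3 := hact k⁻¹ 1 1 1
        simp only [one_smul, mul_one, Units.val_one] at h3
        apply Multiplicative.toAdd.injective
        rw [toAdd_ofAdd, ← h3]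
        rfl
      rw [h2] at this
      rw [this]
      simp only [φ, z, MonoidHom.comp_apply, MonoidHom.inl_apply, map_inv, inv_inv]
    rw [h1, ← map_zpow, ← ofAdd_zsmul]
    congr 1
  refine ⟨MM K Q, inferInstance, φ, z, u, ?_, ?_, ?_, ?_⟩
  · intro q hq
    have h1 := hconj q 1
    rw [zpow_one, Int.cast_one, one_smul] at h1
    have h2 : dl q⁻¹ = dl 1 := by
      have : (QuotientGroup.mk q⁻¹ : K ⧸ Q) = QuotientGroup.mk 1 := by
        rw [QuotientGroup.eq]; simpa using hq
      simp only [dl, this]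
    rw [h2] at h1
    show z * φ q = φ q * z
    have h3 : (φ q)⁻¹ * z * φ q = z := h1
    calc z * φ q = φ q * ((φ q)⁻¹ * z * φ q) := by group
      _ = _ := by rw [h3]
  · intro k
    show u * φ k = φ k * u
    simp only [u, φ, MonoidHom.comp_apply, MonoidHom.inl_apply, ← map_mul]
    congr 1
    simp
  · have := SemidirectProduct.inl_aut (φ := actM K Q) (((1 : K), hf)⁻¹ : K × ℚˣ)
        (Multiplicative.ofAdd (dl 1))
    have h2 : (actM K Q ((1, hf)⁻¹ : K × ℚˣ)) (Multiplicative.ofAdd (dl 1)) =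
        Multiplicative.ofAdd ((2 : ℚ) • dl 1) := by
      have h3 := hact 1 hf⁻¹ 1 1
      simp only [one_smul, mul_one] at h3
      apply Multiplicative.toAdd.injective
      rw [toAdd_ofAdd]
      have h4 : ((hf⁻¹ : ℚˣ) : ℚ) = 2 := by simp [hf]
      rw [h4] at h3
      rw [← h3]
      show _ = ((actE K Q (1, hf⁻¹)) (Multiplicative.ofAdd (dl 1))).toAdd
      simp [actM]
    rw [h2] at this
    simp only [map_inv, inv_inv] at this
    show (SemidirectProduct.inr ((1 : K), hf))⁻¹ * SemidirectProduct.inl (Multiplicative.ofAdd (dl 1)) * SemidirectProduct.inr ((1 : K), hf) = SemidirectProduct.inl (Multiplicative.ofAdd (dl 1)) ^ 2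
    rw [← this, ← map_pow, ← ofAdd_nsmul]
    congr 1
  · intro n hn a ha g hg
    have hπs : ∀ k : ℤ, π (s x t k) = 1 := by
      intro k
      simp [s, hB.t_one]
    -- the group `W`
    let W : AddSubgroup (VV K Q) :=
      AddSubgroup.closure (Set.range (fun k : ℤ => ((2 : ℚ) ^ (k + 1)) • dl (s x t k)⁻¹))
    let W' : AddSubgroup (VV K Q) :=
      { carrier := {f | ∀ ρ ∈ Rr, ∃ b : ℤ, f (QuotientGroup.mk (ρ * (s x t n)⁻¹)) = (g : ℚ) * b}
        zero_mem' := fun ρ _ => ⟨0, by simp⟩
        add_mem' := by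
          intro f f' hf hf' ρ hρ
          obtain ⟨b, hb⟩ := hf ρ hρ
          obtain ⟨b', hb'⟩ := hf' ρ hρ
          exact ⟨b + b', by rw [Pi.add_apply, hb, hb']; push_cast; ring⟩
        neg_mem' := by
          intro f hf ρ hρ
          obtain ⟨b, hb⟩ := hf ρ hρ
          exact ⟨-b, by rw [Pi.neg_apply, hb]; push_cast; ring⟩ }
    have hWW : W ≤ W' := by
      rw [AddSubgroup.closure_le]
      rintro _ ⟨k, rfl⟩ ρ hρ
      by_cases hk : (QuotientGroup.mk (ρ * (s x t n)⁻¹) : K ⧸ Q) = QuotientGroup.mk (s x t k)⁻¹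
      · have h1 : s x t k * ρ * (s x t n)⁻¹ ∈ Q := by
          have := QuotientGroup.eq.1 hk.symm
          simpa [mul_assoc] using this
        have h2 := hB.fix _ h1
        rw [map_mul, map_mul, map_inv, hπs, hπs, hB.fix ρ (hB.le hρ), one_mul, inv_one,
          mul_one] at h2
        have h3 : Conn Rr x t n k := by
          refine ⟨ρ⁻¹, Rr.inv_mem hρ, ?_⟩
          rw [inv_inv]
          have : ρ * s x t n = s x t k * ρ := by
            calc ρ * s x t n = (s x t k * ρ * (s x t n)⁻¹) * s x t n := by rw [← h2]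
              _ = _ := by group
          calc s x t n = ρ⁻¹ * (ρ * s x t n) := by group
            _ = _ := by rw [this]; group
        obtain ⟨b, hb⟩ := hg k h3
        have h0 := hn k h3
        refine ⟨b, ?_⟩
        simp only [Pi.smul_apply, dl, hk, Pi.single_eq_same, smul_eq_mul, mul_one]
        have h5 : k + 1 = ((k.toNat + 1 : ℕ) : ℤ) := by omega
        rw [h5, zpow_natCast]
        have h6 : (((2 : ℤ) ^ (k.toNat + 1) : ℤ) : ℚ) = ((g * b : ℤ) : ℚ) := by rw [hb]
        push_cast at h6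
        exact h6
      · refine ⟨0, ?_⟩
        simp only [Pi.smul_apply, dl, smul_eq_mul]
        rw [Pi.single_eq_of_ne hk]
        simp
    -- the first subgroup
    have hW1 : ∀ f ∈ W, (actE K Q (x, hf) (Multiplicative.ofAdd f)).toAdd ∈ W := by
      intro f hfW
      have hcl : W ≤ W.comap (actA K Q (x, hf)) := by
        rw [AddSubgroup.closure_le]
        rintro _ ⟨k, rfl⟩
        show (actE K Q (x, hf) (Multiplicative.ofAdd _)).toAdd ∈ W
        rw [hact]
        apply AddSubgroup.subset_closure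
        refine ⟨k - 1, ?_⟩
        simp only
        have h1 : ((hf : ℚˣ) : ℚ) * 2 ^ (k + 1) = 2 ^ (k - 1 + 1) := by
          have : ((hf : ℚˣ) : ℚ) = 1 / 2 := rfl
          rw [this, show k + 1 = (k - 1 + 1) + 1 by ring, zpow_add_one₀ (by norm_num)]
          ring
        rw [h1]
        congr 1
        simp only [dl]
        congr 1
        rw [QuotientGroup.eq, s_conj]
        simpa using hB.x_mem
      exact hcl hfW
    have hW2 : ∀ f ∈ W, (actE K Q (x, hf)⁻¹ (Multiplicative.ofAdd f)).toAdd ∈ W := by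
      intro f hfW
      have hcl : W ≤ W.comap (actA K Q (x, hf)⁻¹) := by
        rw [AddSubgroup.closure_le]
        rintro _ ⟨k, rfl⟩
        show (actE K Q (x⁻¹, hf⁻¹) (Multiplicative.ofAdd _)).toAdd ∈ W
        rw [hact]
        apply AddSubgroup.subset_closure
        refine ⟨k + 1, ?_⟩
        simp only
        have h1 : ((hf⁻¹ : ℚˣ) : ℚ) * 2 ^ (k + 1) = 2 ^ (k + 1 + 1) := by
          have : ((hf⁻¹ : ℚˣ) : ℚ) = 2 := by simp [hf]
          rw [this, zpow_add_one₀ (by norm_num : (2 : ℚ) ≠ 0) (k + 1)]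
          ring
        rw [h1]
        congr 1
        simp only [dl]
        congr 1
        rw [QuotientGroup.eq]
        have h2 := s_conj x t (k + 1)
        rw [add_sub_cancel_right] at h2
        have h3 : x⁻¹ * (s x t k)⁻¹ = (s x t (k + 1))⁻¹ * x⁻¹ := by
          rw [inv_mul_eq_iff_eq_mul, ← mul_assoc, h2]; group
        rw [h3]
        simpa using hB.x_mem
      exact hcl hfW
    have hWH : ∀ h ∈ Subgroup.zpowers ((x, hf) : K × ℚˣ), ∀ f ∈ W,
        (actE K Q h (Multiplicative.ofAdd f)).toAdd ∈ W := by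
      intro h hh
      rw [Subgroup.zpowers_eq_closure] at hh
      have hmul : ∀ (a b : K × ℚˣ) (f : VV K Q),
          (actE K Q (a * b) (Multiplicative.ofAdd f)).toAdd =
          (actE K Q a (Multiplicative.ofAdd (actE K Q b (Multiplicative.ofAdd f)).toAdd)).toAdd := by
        intro a b f
        have := (actM K Q).map_mul a b
        have h2 := DFunLike.congr_fun this (Multiplicative.ofAdd f)
        exact congrArg Multiplicative.toAdd h2
      induction hh using Subgroup.closure_induction_left with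
      | one =>
        intro f hfW
        have := (actM K Q).map_one
        have h2 := DFunLike.congr_fun this (Multiplicative.ofAdd f)
        have h3 : (actE K Q 1 (Multiplicative.ofAdd f)).toAdd = f := congrArg Multiplicative.toAdd h2
        rw [h3]; exact hfW
      | mul_left a ha b hb ih =>
        intro f hfW
        rw [Set.mem_singleton_iff] at ha
        rw [hmul, ha]
        exact hW1 _ (ih f hfW)
      | inv_mul_cancel a ha b hb ih =>
        intro f hfW
        rw [Set.mem_singleton_iff] at ha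
        rw [hmul, ha]
        exact hW2 _ (ih f hfW)
    have h1 : Subgroup.closure {φ x * u, (φ t)⁻¹ * z ^ 2 * φ t} ≤ SB W _ hWH := by
      rw [Subgroup.closure_le]
      rintro y (rfl | rfl)
      · refine ⟨?_, ?_⟩
        · have : LL (φ x * u) = 0 := by
            rw [LL_mul]
            have e1 : LL (φ x) = 0 := rfl
            have e2 : LL u = 0 := rfl
            rw [e1, e2, zero_add]
            funext y
            simp [actE]
          rw [this]
          exact W.zero_mem
        · have : (φ x * u).right = (x, hf) := by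
            simp [φ, u]
          rw [this]
          exact Subgroup.mem_zpowers _
      · have e1 : (φ t)⁻¹ * z ^ 2 * φ t = ((φ t)⁻¹ * z * φ t) ^ (2 : ℤ) := by
          rw [pow_two, zpow_two]
          group
        rw [e1, hconj]
        refine ⟨?_, Subgroup.one_mem _⟩
        show ((2 : ℤ) : ℚ) • dl t⁻¹ ∈ W
        apply AddSubgroup.subset_closure
        refine ⟨0, ?_⟩
        simp [s]
    have h2 : Subgroup.closure (Set.range φ ∪ {z}) ≤
        ((MonoidHom.snd K ℚˣ).comp (SemidirectProduct.rightHom (φ := actM K Q))).ker := by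
      rw [Subgroup.closure_le]
      rintro y (⟨k, rfl⟩ | rfl)
      · simp [φ, MonoidHom.mem_ker]
      · simp [z, MonoidHom.mem_ker]
    -- the third subgroup
    let HR : Subgroup (K × ℚˣ) := Rr.prod ⊥
    have hWR : ∀ h ∈ HR, ∀ f ∈ W', (actE K Q h (Multiplicative.ofAdd f)).toAdd ∈ W' := by
      rintro ⟨ρ, c⟩ ⟨hρ, hc⟩ f hfW σ hσ
      obtain ⟨b, hb⟩ := hfW (ρ⁻¹ * σ) (Rr.mul_mem (Rr.inv_mem hρ) hσ)
      refine ⟨b, ?_⟩
      rw [← hb]
      have hc1 : c = 1 := hc
      subst hc1
      simp only [actE, MulEquiv.coe_mk, Equiv.coe_fn_mk, toAdd_ofAdd, Units.val_one, one_mul]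
      congr 1
      rw [mul_assoc]
      rfl
    have h3 : Subgroup.closure
        (((Subgroup.closure {φ x * u, (φ t)⁻¹ * z ^ 2 * φ t} ⊓
          Subgroup.closure (Set.range φ ∪ {z}) : Subgroup (MM K Q)) : Set (MM K Q)) ∪ φ '' Rr) ≤
        SB W' HR hWR := by
      rw [Subgroup.closure_le]
      rintro y (⟨hy1, hy2⟩ | ⟨ρ, hρ, rfl⟩)
      · have h4 := h1 hy1
        have h5 := h2 hy2
        rw [mem_SB] at h4
        obtain ⟨j, hj⟩ := Subgroup.mem_zpowers_iff.1 h4.2
        have h6 : y.right.2 = 1 := h5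
        have h7 : hf ^ j = 1 := by
          rw [← h6, ← hj]; rfl
        have h8 := hf_zpow j h7
        refine ⟨hWW h4.1, ?_⟩
        rw [← hj, h8, zpow_zero]
        exact Subgroup.one_mem _
      · refine ⟨W'.zero_mem, ?_⟩
        exact ⟨hρ, rfl⟩
    have h4 := h3 ha
    rw [hconj] at h4
    obtain ⟨b, hb⟩ := h4.1 1 Rr.one_mem
    have h5 : (a : ℚ) = g * b := by
      rw [← hb]
      show (a : ℚ) = ((a : ℚ) • dl (s x t n)⁻¹) _
      simp [dl]
    exact ⟨b, by exact_mod_cast h5⟩

end Pool.Agent.R702.ISO
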