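import Pool.Agent.Y817.ISO.Stm

set_option autoImplicit false

/-!
Project ISO (S14615): the parts SUBHNN, SQUARE and LEMA.
-/

namespace Pool.Agent.R702.ISO

open Pool.Agent.Y817.ISO
open HNNExtension HNNExtension.NormalWord

theorem hnn_word {K : Type} [Group K] {A B : Subgroup K} (φ : A ≃* B)
    (g : HNNExtension K A B φ) :
    ∃ w : HNNExtension.NormalWord.ReducedWord K A B, w.prod φ = g := by
  obtain ⟨d⟩ := HNNExtension.NormalWord.TransversalPair.nonempty K A B
  refine ⟨(g • (HNNExtension.NormalWord.empty : HNNExtension.NormalWord d)).toReducedWord, ?_⟩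
  rw [HNNExtension.NormalWord.prod_smul, HNNExtension.NormalWord.prod_empty, mul_one]

/-- the product of a list of letters. -/
noncomputable def lp {K : Type} [Group K] {A B : Subgroup K} (φ : A ≃* B) (l : List (ℤˣ × K)) :
    HNNExtension K A B φ := (l.map (fun x => t ^ (x.1 : ℤ) * of x.2)).prod

theorem lp_nil {K : Type} [Group K] {A B : Subgroup K} (φ : A ≃* B) :
    lp φ ([] : List (ℤˣ × K)) = 1 := by
  simp [lp]

theorem lp_cons {K : Type} [Group K] {A B : Subgroup K} (φ : A ≃* B) (a : ℤˣ × K)
    (l : List (ℤˣ × K)) :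
    lp φ (a :: l) = t ^ (a.1 : ℤ) * of a.2 * lp φ l := by
  simp [lp]

theorem prod_eq {K : Type} [Group K] {A B : Subgroup K} (φ : A ≃* B)
    (w : ReducedWord K A B) : w.prod φ = of w.head * lp φ w.toList := rfl

theorem toSub_refl {G : Type} [Group G] (S : Subgroup G) (u : ℤˣ) : toSubgroup S S u = S := by
  unfold toSubgroup
  split_ifs <;> rfl

/-- Britton: a reduced list whose product lies in the base is empty. -/
theorem britton {G : Type} [Group G] (S : Subgroup G) (l : List (ℤˣ × G))
    (hc : l.IsChain (fun a b => a.2 ∈ S → a.1 = b.1)) (g h : G)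
    (he : (of g : CE G S) * lp (MulEquiv.refl S) l = of h) : l = [] := by
  have hc' : l.IsChain (fun a b => a.2 ∈ toSubgroup S S a.1 → a.1 = b.1) := by
    refine hc.imp ?_
    intro a b hab ha
    rw [toSub_refl] at ha
    exact hab ha
  refine ReducedWord.toList_eq_nil_of_mem_of_range (MulEquiv.refl S)
    (⟨g, l, hc'⟩ : ReducedWord G S S) ?_
  rw [prod_eq]
  exact ⟨h, he.symm⟩

theorem subHNN : StmSubHNN := by
  intro A G _ _ α SA S hα hS
  have hx : ∀ a : SA, (t : CE G S) * (of.comp α) (a : A) =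
      (of.comp α) ((MulEquiv.refl SA a : SA) : A) * t := by
    intro a
    have := t_mul_of (φ := MulEquiv.refl S) (⟨α a, (hS a).2 a.2⟩ : S)
    simpa using this
  refine ⟨HNNExtension.lift (of.comp α) t hx, ?_, fun a => by simp, by simp⟩
  rw [injective_iff_map_eq_one]
  intro x hx1
  obtain ⟨w, rfl⟩ := hnn_word (MulEquiv.refl SA) x
  have key : ∀ l : List (ℤˣ × A),
      HNNExtension.lift (of.comp α) t hx (lp (MulEquiv.refl SA) l) =
        lp (MulEquiv.refl S) (l.map (fun a => (a.1, α a.2))) := by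
    intro l
    induction l with
    | nil => simp [lp_nil]
    | cons a l ih => simp [lp_cons, ih]
  rw [prod_eq, map_mul, key, lift_of] at hx1
  have hnil : w.toList.map (fun a => (a.1, α a.2)) = [] := by
    refine britton S _ ?_ (α w.head) 1 ?_
    · rw [List.isChain_map]
      refine w.chain.imp ?_
      intro a b hab ha
      rw [toSub_refl] at hab
      exact hab ((hS _).1 ha)
    · rw [map_one]; exact hx1
  rw [List.map_eq_nil_iff] at hnil
  rw [prod_eq, hnil, lp_nil, mul_one]
  rw [hnil, List.map_nil, lp_nil, mul_one] at hx1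
  have h1 : (of (α w.head) : CE G S) = of 1 := by rw [map_one]; exact hx1
  have h2 := hα ((of_injective (MulEquiv.refl S) h1).trans (map_one α).symm)
  rw [h2, map_one]

/-- double the letters -/
def dbl {K : Type} [Group K] (l : List (ℤˣ × K)) : List (ℤˣ × K) :=
  l.flatMap (fun a => [(a.1, 1), (a.1, a.2)])

theorem dbl_cons {K : Type} [Group K] (a : ℤˣ × K) (l : List (ℤˣ × K)) :
    dbl (a :: l) = (a.1, 1) :: (a.1, a.2) :: dbl l := rfl

theorem square : StmSquare := by
  intro K _ Q
  have hx : ∀ a : Q, (t : CE K Q) ^ 2 * of (a : K) = of ((MulEquiv.refl Q a : Q) : K) * t ^ 2 := by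
    intro a
    have := t_mul_of (φ := MulEquiv.refl Q) a
    rw [pow_two, mul_assoc, this, ← mul_assoc]
    have h2 : (t : CE K Q) * of (((MulEquiv.refl Q) a : Q) : K) = of (((MulEquiv.refl Q) a : Q) : K) * t := this
    rw [h2, mul_assoc]
  refine ⟨HNNExtension.lift of (t ^ 2) hx, ?_, fun a => by simp, by simp⟩
  rw [injective_iff_map_eq_one]
  intro x hx1
  obtain ⟨w, rfl⟩ := hnn_word (MulEquiv.refl Q) x
  have key : ∀ l : List (ℤˣ × K),
      HNNExtension.lift of (t ^ 2) hx (lp (MulEquiv.refl Q) l) =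
        lp (MulEquiv.refl Q) (dbl l) := by
    intro l
    induction l with
    | nil => simp [lp_nil, dbl]
    | cons a l ih =>
      rw [dbl_cons]
      simp only [lp_cons, map_mul, ih, map_zpow, lift_t, lift_of, map_one, mul_one]
      rw [← mul_assoc, ← mul_assoc]
      congr 2
      rw [← zpow_natCast, ← zpow_mul, ← zpow_add]
      congr 1
      push_cast
      ring
  rw [prod_eq, map_mul, key, lift_of] at hx1
  have hch : ∀ l : List (ℤˣ × K), l.IsChain (fun a b => a.2 ∈ Q → a.1 = b.1) →
      (dbl l).IsChain (fun a b => a.2 ∈ Q → a.1 = b.1) := by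
    intro l hl
    induction l with
    | nil => exact List.isChain_nil
    | cons a l ih =>
      rw [dbl_cons]
      refine List.isChain_cons_cons.2 ⟨fun _ => rfl, ?_⟩
      cases l with
      | nil => exact List.isChain_singleton _
      | cons b l =>
        rw [List.isChain_cons_cons] at hl
        have h3 := ih hl.2
        rw [dbl_cons] at h3 ⊢
        exact List.isChain_cons_cons.2 ⟨hl.1, h3⟩
  have hnil : dbl w.toList = [] := by
    refine britton Q _ (hch _ ?_) w.head 1 ?_
    · refine w.chain.imp ?_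
      intro a b hab ha
      rw [toSub_refl] at hab
      exact hab ha
    · rw [map_one]; exact hx1
  have hnil2 : w.toList = [] := by
    cases h : w.toList with
    | nil => rfl
    | cons a l => rw [h, dbl_cons] at hnil; simp at hnil
  rw [prod_eq, hnil2, lp_nil, mul_one]
  rw [hnil, lp_nil, mul_one] at hx1
  exact hx1

/-- the elements with a normal form for LEMA. -/
def tw {G : Type} [Group G] (S : Subgroup G) : List (G × G) → CE G S
  | [] => 1
  | (m, l) :: r => t * of m * t⁻¹ * of l * tw S r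

def tl {G : Type} [Group G] : List (G × G) → List (ℤˣ × G)
  | [] => []
  | (m, l) :: r => (1, m) :: (-1, l) :: tl r

theorem lp_tl {G : Type} [Group G] (S : Subgroup G) (r : List (G × G)) :
    lp (MulEquiv.refl S) (tl r) = tw S r := by
  induction r with
  | nil => simp [tl, tw, lp_nil]
  | cons a r ih =>
    obtain ⟨m, l⟩ := a
    simp only [tl, tw, lp_cons, ih]
    simp [mul_assoc]

/-- good lists -/
def Gd {G : Type} [Group G] (S M L : Subgroup G) : List (G × G) → Prop
  | [] => True
  | [(m, l)] => m ∈ M ∧ m ∉ S ∧ l ∈ L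
  | (m, l) :: (m', l') :: r => m ∈ M ∧ m ∉ S ∧ l ∈ L ∧ l ∉ S ∧ Gd S M L ((m', l') :: r)

theorem gd_tail {G : Type} [Group G] {S M L : Subgroup G} {a : G × G} {r : List (G × G)}
    (h : Gd S M L (a :: r)) : Gd S M L r := by
  obtain ⟨m, l⟩ := a
  cases r with
  | nil => trivial
  | cons b r => obtain ⟨m', l'⟩ := b; exact h.2.2.2.2

theorem gd_head {G : Type} [Group G] {S M L : Subgroup G} {m l : G} {r : List (G × G)}
    (h : Gd S M L ((m, l) :: r)) : m ∈ M ∧ m ∉ S ∧ l ∈ L := by
  cases r with
  | nil => exact h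
  | cons b r => obtain ⟨m', l'⟩ := b; exact ⟨h.1, h.2.1, h.2.2.1⟩

theorem gd_chain {G : Type} [Group G] {S M L : Subgroup G} (r : List (G × G))
    (h : Gd S M L r) : (tl r).IsChain (fun a b => a.2 ∈ S → a.1 = b.1) := by
  induction r with
  | nil => exact List.isChain_nil
  | cons a r ih =>
    obtain ⟨m, l⟩ := a
    have h0 := gd_head h
    cases r with
    | nil =>
      refine List.isChain_cons_cons.2 ⟨fun hm => absurd hm h0.2.1, List.isChain_singleton _⟩
    | cons b r =>
      obtain ⟨m', l'⟩ := b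
      have h1 := ih (gd_tail h)
      refine List.isChain_cons_cons.2 ⟨fun hm => absurd hm h0.2.1, ?_⟩
      exact List.isChain_cons_cons.2 ⟨fun hm => absurd hm h.2.2.2.1, h1⟩

/-- the set of elements having a normal form -/
def NF {G : Type} [Group G] (S M L : Subgroup G) (y : CE G S) : Prop :=
  ∃ (l : G) (r : List (G × G)), l ∈ L ∧ Gd S M L r ∧ y = of l * tw S r

theorem comm_t {G : Type} [Group G] {S : Subgroup G} {g : G} (hg : g ∈ S) :
    (t : CE G S) * of g = of g * t :=
  t_mul_of (φ := MulEquiv.refl S) (⟨g, hg⟩ : S)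

theorem NF_L {G : Type} [Group G] {S M L : Subgroup G} {y : CE G S} (h : NF S M L y) {l : G}
    (hl : l ∈ L) : NF S M L (of l * y) := by
  obtain ⟨l', r, h1, h2, rfl⟩ := h
  exact ⟨l * l', r, L.mul_mem hl h1, h2, by rw [map_mul, mul_assoc]⟩

theorem NF_M {G : Type} [Group G] {S M L : Subgroup G} (hSM : S ⊓ M ≤ L) (hLM : L ≤ M)
    {y : CE G S} (h : NF S M L y) {m : G} (hm : m ∈ M) : NF S M L (t * of m * t⁻¹ * y) := by
  by_cases hmS : m ∈ S
  · have : (t : CE G S) * of m * t⁻¹ = of m := by rw [comm_t hmS, mul_inv_cancel_right]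
    rw [this]
    exact NF_L h (hSM ⟨hmS, hm⟩)
  obtain ⟨l, r, h1, h2, rfl⟩ := h
  cases r with
  | nil =>
    refine ⟨1, [(m, l)], L.one_mem, ⟨hm, hmS, h1⟩, ?_⟩
    simp [tw, mul_assoc]
  | cons b r =>
    obtain ⟨m', l'⟩ := b
    by_cases hlS : l ∈ S
    · have h3 := gd_head h2
      have e : (t : CE G S) * of m * t⁻¹ * (of l * tw S ((m', l') :: r)) =
          t * of (m * l * m') * t⁻¹ * (of l' * tw S r) := by
        have : (t⁻¹ : CE G S) * of l * t = of l := by
          rw [mul_assoc, ← comm_t hlS, inv_mul_cancel_left]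
        simp only [tw, map_mul]
        calc (t : CE G S) * of m * t⁻¹ * (of l * (t * of m' * t⁻¹ * of l' * tw S r))
            = t * of m * (t⁻¹ * of l * t) * of m' * t⁻¹ * of l' * tw S r := by
              simp only [mul_assoc]
          _ = _ := by rw [this]; simp only [mul_assoc]
      rw [e]
      have hm3 : m * l * m' ∈ M := M.mul_mem (M.mul_mem hm (hLM h1)) h3.1
      by_cases h4 : m * l * m' ∈ S
      · have : (t : CE G S) * of (m * l * m') * t⁻¹ = of (m * l * m') := by
          rw [comm_t h4, mul_inv_cancel_right]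
        rw [this]
        exact ⟨m * l * m' * l', r, L.mul_mem (hSM ⟨h4, hm3⟩) h3.2.2, gd_tail h2, by
          rw [map_mul (of : G →* CE G S) (m * l * m') l', mul_assoc (of (m * l * m') : CE G S)]⟩
      · refine ⟨1, (m * l * m', l') :: r, L.one_mem, ?_, ?_⟩
        · cases r with
          | nil => exact ⟨hm3, h4, h3.2.2⟩
          | cons c r =>
            obtain ⟨m2, l2⟩ := c
            exact ⟨hm3, h4, h3.2.2, h2.2.2.2.1, gd_tail h2⟩
        · simp [tw, mul_assoc]
    · refine ⟨1, (m, l) :: (m', l') :: r, L.one_mem, ⟨hm, hmS, h1, hlS, h2⟩, ?_⟩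
      simp [tw, mul_assoc]

theorem lemA : StmLemA := by
  intro G _ S M L hSM hLM x hx
  have h : ∀ y : CE G S, y ∈ Subgroup.closure
      ((fun g : G => (HNNExtension.t * HNNExtension.of g * HNNExtension.t⁻¹ : CE G S)) '' M ∪
      (fun g : G => (HNNExtension.of g : CE G S)) '' L) → NF S M L y := by
    intro y hy
    induction hy using Subgroup.closure_induction_left with
    | one => exact ⟨1, [], L.one_mem, trivial, by simp [tw]⟩
    | mul_left a ha b hb ih =>
      rcases ha with ⟨g, hg, rfl⟩ | ⟨g, hg, rfl⟩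
      · exact NF_M hSM hLM ih hg
      · exact NF_L ih hg
    | inv_mul_cancel a ha b hb ih =>
      rcases ha with ⟨g, hg, rfl⟩ | ⟨g, hg, rfl⟩
      · have : ((t : CE G S) * of g * t⁻¹)⁻¹ = t * of g⁻¹ * t⁻¹ := by
          rw [map_inv]; simp [mul_assoc]
        show NF S M L (((t : CE G S) * of g * t⁻¹)⁻¹ * b)
        rw [this]
        exact NF_M hSM hLM ih (M.inv_mem hg)
      · show NF S M L ((of g : CE G S)⁻¹ * b)
        rw [← map_inv]
        exact NF_L ih (L.inv_mem hg)
  obtain ⟨l, r, h1, h2, h3⟩ := h _ hx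
  have hnil := britton S (tl r) (gd_chain r h2) l x (by rw [lp_tl]; exact h3.symm)
  have : r = [] := by
    cases r with
    | nil => rfl
    | cons a r => obtain ⟨m, l⟩ := a; simp [tl] at hnil
  subst this
  rw [tw, mul_one] at h3
  rw [of_injective (MulEquiv.refl S) h3]
  exact h1

end Pool.Agent.R702.ISO
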