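import Pool.Agent.R702.ISO.BgInv
import Pool.Agent.R702.ISO.Syll
import Pool.Agent.R702.ISO.AmUP

set_option autoImplicit false

/-!
Project ISO (S14615): the part INV.
-/

namespace Pool.Agent.R702.ISO

open Pool.Agent.Y817.ISO Pool.Agent.R702.ISO.Syll
open Monoid

section

variable {E : Type} [Group E] {G : Bool → Type} [∀ b, Group (G b)] {φ : ∀ b, E →* G b}

/-- the inverse list -/
def invL (L : List (Σ b, G b)) : List (Σ b, G b) :=
  (L.map (fun s => (⟨s.1, s.2⁻¹⟩ : Σ b, G b))).reverse

theorem pr_invL (L : List (Σ b, G b)) : pr φ (invL L) = (pr φ L)⁻¹ := by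
  induction L with
  | nil => simp [invL, pr]
  | cons s L ih =>
    have : invL (s :: L) = invL L ++ [⟨s.1, s.2⁻¹⟩] := by simp [invL]
    rw [this, pr_append, ih, pr_cons, pr_cons, pr_nil, mul_one, mul_inv_rev, map_inv]

theorem red_invL {L : List (Σ b, G b)} (h : Red φ L) : Red φ (invL L) := by
  constructor
  · intro s hs
    simp only [invL, List.mem_reverse, List.mem_map] at hs
    obtain ⟨s', hs', rfl⟩ := hs
    intro hm
    have := inv_mem hm
    simp only [inv_inv] at this
    exact h.1 s' hs' this
  · rw [invL, List.isChain_reverse, List.isChain_map]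
    exact h.2.imp (fun _ _ hab hba => hab hba.symm)

/-- a reduced word without first or last syllable in the factor `true` conjugates no outside
element of this factor to itself -/
theorem cent_aux (hφ : ∀ b, Function.Injective (φ b)) (y : G true) (hy : y ∉ (φ true).range)
    (L : List (Σ b, G b)) (hL : Red φ L) (hne : L ≠ [])
    (h1 : ∀ s ∈ L.head?, s.1 = false) (h2 : ∀ s ∈ L.getLast?, s.1 = false)
    (hc : pr φ L * PushoutI.of (φ := φ) true y = PushoutI.of (φ := φ) true y * pr φ L) : False := by
  have hyi : y⁻¹ ∉ (φ true).range := by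
    intro h
    exact hy (by simpa using inv_mem h)
  have hr : Red φ (L ++ ([⟨true, y⟩] ++ (invL L ++ [⟨true, y⁻¹⟩]))) := by
    have hI := red_invL hL
    constructor
    · intro s hs
      simp only [List.mem_append, List.mem_singleton] at hs
      rcases hs with hs | rfl | hs | rfl
      · exact hL.1 s hs
      · exact hy
      · exact hI.1 s hs
      · exact hyi
    · have hIh : ∀ s ∈ (invL L).head?, s.1 = false := by
        intro s hs
        rw [invL, List.head?_reverse, List.getLast?_map] at hs
        simp only [Option.mem_def, Option.map_eq_some_iff] at hs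
        obtain ⟨s', hs', rfl⟩ := hs
        exact h2 s' hs'
      have hIl : ∀ s ∈ (invL L).getLast?, s.1 = false := by
        intro s hs
        rw [invL, List.getLast?_reverse, List.head?_map] at hs
        simp only [Option.mem_def, Option.map_eq_some_iff] at hs
        obtain ⟨s', hs', rfl⟩ := hs
        exact h1 s' hs'
      have hIne : invL L ≠ [] := by
        simp [invL, hne]
      rw [List.isChain_append]
      refine ⟨hL.2, ?_, ?_⟩
      · rw [List.isChain_append]
        refine ⟨List.isChain_singleton _, ?_, ?_⟩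
        · rw [List.isChain_append]
          refine ⟨hI.2, List.isChain_singleton _, ?_⟩
          intro a ha b hb
          simp only [List.head?_cons, Option.mem_def, Option.some.injEq] at hb
          subst hb
          rw [hIl a ha]
          simp
        · intro a ha b hb
          simp only [List.getLast?_singleton, Option.mem_def, Option.some.injEq] at ha
          subst ha
          rw [List.head?_append_of_ne_nil _ hIne] at hb
          rw [hIh b hb]
          simp
      · intro a ha b hb
        simp only [List.singleton_append, List.head?_cons, Option.mem_def,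
          Option.some.injEq] at hb
        subst hb
        rw [h2 a ha]
        simp
  refine hr.ne_one hφ (by simp) ?_
  rw [pr_append, pr_append, pr_append, pr_invL, pr_cons, pr_nil, mul_one, pr_cons, pr_nil, mul_one]
  show pr φ L * (PushoutI.of (φ := φ) true y * ((pr φ L)⁻¹ * PushoutI.of (φ := φ) true y⁻¹)) = 1
  rw [← mul_assoc, hc, map_inv]
  group

/-- centralizers of central elements of the factor `true` outside of the edge group -/
theorem cent (hφ : ∀ b, Function.Injective (φ b)) (y : G true) (hy : y ∉ (φ true).range)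
    (hyc : ∀ w : G true, Commute y w) (g : PushoutI φ)
    (hg : Commute g (PushoutI.of (φ := φ) true y)) :
    ∃ w : G true, g = PushoutI.of (φ := φ) true w := by
  classical
  let κ : G true →* PushoutI φ := PushoutI.of (φ := φ) true
  have hex : ∃ n, ∃ (w w' : G true) (L : List (Σ b, G b)), L.length = n ∧
      pr φ L = κ w * g * κ w' := by
    obtain ⟨L, hL⟩ := exists_pr g
    exact ⟨L.length, 1, 1, L, rfl, by simp [hL]⟩
  obtain ⟨w, w', L, hn, hL⟩ := Nat.find_spec hex
  have hmin : ∀ (w w' : G true) (L' : List (Σ b, G b)), pr φ L' = κ w * g * κ w' →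
      L.length ≤ L'.length := by
    intro w w' L' h
    rw [hn]
    exact Nat.find_min' hex ⟨w, w', L', rfl, h⟩
  by_cases hne : L = []
  · rw [hne, pr_nil] at hL
    refine ⟨w⁻¹ * w'⁻¹, ?_⟩
    have : g = (κ w)⁻¹ * (κ w * g * κ w') * (κ w')⁻¹ := by group
    rw [this, ← hL]
    show _ = κ (w⁻¹ * w'⁻¹)
    rw [map_mul, map_inv, map_inv, mul_one]
  exfalso
  have hhead : ∀ s ∈ L.head?, s.1 = false := by
    intro s hs
    by_contra hs1
    obtain ⟨b, s⟩ := s
    have hb : b = true := by cases b <;> simp_all
    subst hb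
    cases L with
    | nil => exact hne rfl
    | cons s' M =>
      simp only [List.head?_cons, Option.mem_def, Option.some.injEq] at hs
      subst hs
      have := hmin (s⁻¹ * w) w' M (by
        rw [pr_cons] at hL
        have h3 : pr φ M = (κ s)⁻¹ * (κ s * pr φ M) := by group
        rw [h3, map_mul, map_inv]
        have h4 : κ s * pr φ M = κ w * g * κ w' := hL
        rw [h4]
        group)
      simp at this
  have hlast : ∀ s ∈ L.getLast?, s.1 = false := by
    intro s hs
    by_contra hs1
    obtain ⟨b, s⟩ := s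
    have hb : b = true := by cases b <;> simp_all
    subst hb
    obtain ⟨M, hM⟩ : ∃ M, L = M ++ [⟨true, s⟩] := by
      refine ⟨L.dropLast, ?_⟩
      have h5 := List.dropLast_append_getLast hne
      have h6 : L.getLast hne = ⟨true, s⟩ := by
        rw [List.getLast?_eq_some_getLast hne] at hs
        exact Option.some.inj hs
      rw [h6] at h5
      exact h5.symm
    have := hmin w (w' * s⁻¹) M (by
      rw [hM, pr_append, pr_cons, pr_nil, mul_one] at hL
      have h3 : pr φ M = (pr φ M * κ s) * (κ s)⁻¹ := by group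
      have h4 : pr φ M * κ s = κ w * g * κ w' := hL
      rw [h3, h4, map_mul, map_inv]
      group)
    rw [hM] at this
    simp at this
  have hred : Red φ L := by
    by_cases h2 : 2 ≤ L.length
    · exact red_of_min L h2 (fun L' h => hmin w w' L' (by rw [h, hL]))
    · have h1 : L.length = 1 := by
        have : L.length ≠ 0 := by simpa using hne
        omega
      obtain ⟨s, rfl⟩ := List.length_eq_one_iff.1 h1
      refine ⟨?_, List.isChain_singleton _⟩
      intro s' hs'
      rw [List.mem_singleton] at hs'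
      subst hs'
      rintro ⟨e, he⟩
      have := hmin (φ true e⁻¹ * w) w' [] (by
        rw [pr_nil]
        rw [pr_cons, pr_nil, mul_one, ← he, PushoutI.of_apply_eq_base,
          ← PushoutI.of_apply_eq_base φ true] at hL
        have h4 : κ (φ true e) = κ w * g * κ w' := hL
        rw [map_mul, map_inv, map_inv]
        have h5 : (κ (φ true e))⁻¹ * κ w * g * κ w' = (κ (φ true e))⁻¹ * (κ w * g * κ w') := by
          group
        rw [h5, ← h4, inv_mul_cancel])
      simp at this
  refine cent_aux hφ y hy L hred hne hhead hlast ?_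
  have e1 : ∀ v : G true, κ v * κ y = κ y * κ v := by
    intro v
    rw [← map_mul, ← map_mul, (hyc v).eq]
  have e2 : g * κ y = κ y * g := hg.eq
  show pr φ L * κ y = κ y * pr φ L
  rw [hL]
  calc κ w * g * κ w' * κ y = κ w * g * (κ w' * κ y) := by group
    _ = κ w * (g * κ y) * κ w' := by rw [e1]; group
    _ = (κ w * κ y) * g * κ w' := by rw [e2]; group
    _ = κ y * (κ w * g * κ w') := by rw [e1]; group

end

/-- elements of finite order in the amalgam -/
theorem fin_order {E U : Type} [Group E] [Group U] (β : E →* U) (hβ : Function.Injective β)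
    (tf : TF U) (z : Amal β) (hz : IsOfFinOrder z) :
    ∃ (h : Amal β) (y : Multiplicative (ZMod 5)), z = h * Monoid.PushoutI.of (φ := famHom β) true
      ((1 : E), y) * h⁻¹ := by
  have hφ : ∀ b, Function.Injective (famHom β b) := by
    intro b
    cases b with
    | false => exact hβ
    | true => intro x y h; exact congrArg Prod.fst h
  obtain ⟨c, L, hL, h⟩ := exists_red_conj z
  have hconj : z = c * pr (famHom β) L * c⁻¹ := by rw [hL]; group
  have hfin : IsOfFinOrder (pr (famHom β) L) := by
    rw [hL]
    have := MonoidHom.isOfFinOrder (MulAut.conj c⁻¹).toMonoidHom hz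
    simpa using this
  obtain ⟨n, hn, hLn⟩ := isOfFinOrder_iff_pow_eq_one.1 hfin
  have hinj : ∀ b, Function.Injective (PushoutI.of (φ := famHom β) b) :=
    fun b => PushoutI.of_injective hφ b
  rcases h with h | h
  · match L, h with
    | [], _ =>
      refine ⟨1, 1, ?_⟩
      have e : ((1 : E), (1 : Multiplicative (ZMod 5))) = 1 := rfl
      rw [hconj, pr_nil]
      have e2 : (PushoutI.of (φ := famHom β) true) ((1 : E), (1 : Multiplicative (ZMod 5))) = 1 :=
        map_one (PushoutI.of (φ := famHom β) true)
      rw [e2]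
      group
    | [⟨false, s⟩], _ =>
      rw [pr_cons, pr_nil, mul_one] at hLn hconj
      rw [← map_pow] at hLn
      have h1 : s ^ n = 1 := hinj false (by rw [map_one]; exact hLn)
      have h2 : (s : U) = 1 := tf s (isOfFinOrder_iff_pow_eq_one.2 ⟨n, hn, h1⟩)
      refine ⟨1, 1, ?_⟩
      have e2 : (PushoutI.of (φ := famHom β) true) ((1 : E), (1 : Multiplicative (ZMod 5))) = 1 :=
        map_one (PushoutI.of (φ := famHom β) true)
      have e3 : (PushoutI.of (φ := famHom β) false) s = 1 := by
        have : s = (1 : U) := h2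
        rw [this]
        exact map_one (PushoutI.of (φ := famHom β) false)
      rw [hconj, e2]
      show c * (PushoutI.of (φ := famHom β) false) s * c⁻¹ = _
      rw [e3]
      group
    | [⟨true, (e, y)⟩], _ =>
      rw [pr_cons, pr_nil, mul_one] at hLn hconj
      rw [← map_pow] at hLn
      have h1 : (((e, y) : E × Multiplicative (ZMod 5)) : Fam E U true) ^ n = 1 :=
        hinj true (hLn.trans (map_one (PushoutI.of (φ := famHom β) true)).symm)
      have h1' : ((e, y) : E × Multiplicative (ZMod 5)) ^ n = 1 := h1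
      have h2 : e ^ n = 1 := congrArg Prod.fst h1'
      have h3 : β e = 1 := tf _ (isOfFinOrder_iff_pow_eq_one.2 ⟨n, hn, by
        rw [← map_pow, h2, map_one]⟩)
      have h4 : e = 1 := hβ (by rw [h3, map_one])
      subst h4
      exact ⟨c, y, hconj⟩
  · by_cases hLne : L = []
    · refine ⟨1, 1, ?_⟩
      have e2 : (PushoutI.of (φ := famHom β) true) ((1 : E), (1 : Multiplicative (ZMod 5))) = 1 :=
        map_one (PushoutI.of (φ := famHom β) true)
      rw [hconj, hLne, pr_nil, e2]
      group
    exfalso
    obtain ⟨m, rfl⟩ := Nat.exists_eq_succ_of_ne_zero hn.ne'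
    refine (h (m + 1)).ne_one hφ ?_ ?_
    · rw [rep]
      intro h3
      exact hLne (List.append_eq_nil_iff.mp h3).1
    · rw [pr_rep]
      exact hLn

theorem cent_true {E U : Type} [Group E] [Group U] (β : E →* U) (hβ : Function.Injective β)
    (y : Multiplicative (ZMod 5)) (hy : y ≠ 1) (g : Amal β)
    (hg : Commute g (Monoid.PushoutI.of (φ := famHom β) true ((1 : E), y))) :
    ∃ w : E × Multiplicative (ZMod 5), g = Monoid.PushoutI.of (φ := famHom β) true w := by
  have hφ : ∀ b, Function.Injective (famHom β b) := by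
    intro b
    cases b with
    | false => exact hβ
    | true => intro x y h; exact congrArg Prod.fst h
  refine cent hφ (((1 : E), y) : E × Multiplicative (ZMod 5)) ?_ ?_ g hg
  · rintro ⟨e, he⟩
    exact hy (congrArg Prod.snd he).symm
  · rintro ⟨e, x⟩
    show ((1 : E), y) * (e, x) = (e, x) * ((1 : E), y)
    rw [Prod.mk_mul_mk, Prod.mk_mul_mk, one_mul, mul_one, mul_comm]

/-- a homomorphism between centralizers gives divisibility -/
theorem dvd_of_hom (g g' : ℤ) (n : ℕ) (hgn : g' = n) (hn : 2 ≤ n)
    (θ : (Bg g × Multiplicative (ZMod 5)) ≃* (Bg g' × Multiplicative (ZMod 5))) : g' ∣ g := by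
  obtain ⟨I, hIz, hIt⟩ := bg_lift g (Multiplicative.ofAdd (1 : ℤ)) (1 : Multiplicative ℤ)
    (Commute.one_left _)
  let w : Bg g × Multiplicative (ZMod 5) := (bz g ^ g, 1)
  have hw : ∀ v, Commute w v := by
    rintro ⟨e, x⟩
    exact Prod.ext (bg_central g e).eq (by simp [w])
  have hθw : ∀ v, Commute (θ w) v := by
    intro v
    have := (hw (θ.symm v)).map θ
    rwa [θ.apply_symm_apply] at this
  -- the homomorphism on the other side
  let χ' : (Bg g' × Multiplicative (ZMod 5)) →* Multiplicative ℤ :=
    I.comp ((MonoidHom.fst _ _).comp θ.symm.toMonoidHom)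
  have h1 : χ' (θ w) = Multiplicative.ofAdd g := by
    show I ((θ.symm (θ w)).1) = _
    rw [θ.symm_apply_apply]
    show I (bz g ^ g) = _
    rw [map_zpow, hIz, ← ofAdd_zsmul]
    simp
  have h2 : ∀ x : Multiplicative (ZMod 5), χ' ((1 : Bg g'), x) = 1 := by
    intro x
    have h3 : (χ' ((1 : Bg g'), x)) ^ 5 = 1 := by
      rw [← map_pow, Prod.pow_mk, one_pow]
      have h5 : x ^ 5 = 1 := by
        revert x
        decide
      rw [h5]
      exact map_one χ'
    have h4 : (5 : ℕ) • (χ' ((1 : Bg g'), x)).toAdd = 0 := h3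
    simp only [smul_eq_zero] at h4
    rcases h4 with h4 | h4
    · omega
    · exact h4
  have h3 : χ' (θ w) = (χ'.comp (MonoidHom.inl _ _)) (θ w).1 := by
    have : θ w = ((θ w).1, 1) * (1, (θ w).2) := by
      simp
    rw [this, map_mul, h2, mul_one]
    simp
  have h4 := bg_dvd g' n hgn hn (θ w).1 (fun e' => by
    have := hθw (e', 1)
    exact congrArg Prod.fst this.eq) (χ'.comp (MonoidHom.inl _ _))
  rw [← h3, h1, toAdd_ofAdd] at h4
  exact h4

theorem iso_cent (U : Type) [Group U] (g g' : ℤ) (β : Bg g →* U) (β' : Bg g' →* U) (tf : TF U)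
    (hβ : Function.Injective β) (hβ' : Function.Injective β') (ι : Amal β ≃* Amal β') :
    Nonempty ((Bg g × Multiplicative (ZMod 5)) ≃* (Bg g' × Multiplicative (ZMod 5))) := by
  have hφ : ∀ b, Function.Injective (famHom β b) := by
    intro b
    cases b with
    | false => exact hβ
    | true => intro x y h; exact congrArg Prod.fst h
  have hφ' : ∀ b, Function.Injective (famHom β' b) := by
    intro b
    cases b with
    | false => exact hβ'
    | true => intro x y h; exact congrArg Prod.fst h
  let κ : (Bg g × Multiplicative (ZMod 5)) →* Amal β := Monoid.PushoutI.of (φ := famHom β) true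
  let κ' : (Bg g' × Multiplicative (ZMod 5)) →* Amal β' :=
    Monoid.PushoutI.of (φ := famHom β') true
  have hκ : Function.Injective κ := PushoutI.of_injective hφ true
  have hκ' : Function.Injective κ' := PushoutI.of_injective hφ' true
  let γ : Multiplicative (ZMod 5) := Multiplicative.ofAdd 1
  have hγ : γ ≠ 1 := by decide
  have hfin : IsOfFinOrder (κ (1, γ)) := by
    refine isOfFinOrder_iff_pow_eq_one.2 ⟨5, by norm_num, ?_⟩
    rw [← map_pow, Prod.pow_mk, one_pow]
    have h5 : γ ^ 5 = 1 := by decide
    rw [h5]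
    exact map_one κ
  obtain ⟨h, y, hy⟩ := fin_order β' hβ' tf (ι (κ (1, γ))) (MonoidHom.isOfFinOrder ι.toMonoidHom hfin)
  have hy' : ι (κ (1, γ)) = h * κ' (1, y) * h⁻¹ := hy
  have hy1 : y ≠ 1 := by
    rintro rfl
    have e1 : κ' (1, 1) = 1 := map_one κ'
    rw [e1, mul_one, mul_inv_cancel] at hy'
    have e2 : κ (1, γ) = 1 := ι.injective (by rw [hy', map_one])
    have e3 : ((1 : Bg g), γ) = 1 := hκ (by rw [e2, map_one])
    exact hγ (congrArg Prod.snd e3)
  -- the conjugated isomorphism
  let ι' : Amal β ≃* Amal β' := ι.trans (MulAut.conj h⁻¹)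
  have hι' : ι' (κ (1, γ)) = κ' (1, y) := by
    show (MulAut.conj h⁻¹) (ι (κ (1, γ))) = _
    rw [hy', MulAut.conj_apply]
    group
  have hcomm : ∀ w : Bg g × Multiplicative (ZMod 5), Commute w (1, γ) := by
    rintro ⟨e, x⟩
    exact Prod.ext (by simp) (mul_comm _ _)
  have hcomm' : ∀ w : Bg g' × Multiplicative (ZMod 5), Commute w (1, y) := by
    rintro ⟨e, x⟩
    exact Prod.ext (by simp) (mul_comm _ _)
  have h1 : ∀ w, ∃ w', ι' (κ w) = κ' w' := by
    intro w
    refine cent_true β' hβ' y hy1 _ ?_
    have := ((hcomm w).map κ).map ι'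
    rw [hι'] at this
    exact this
  have h2 : ∀ w', ∃ w, ι'.symm (κ' w') = κ w := by
    intro w'
    refine cent_true β hβ γ hγ _ ?_
    have := ((hcomm' w').map κ').map ι'.symm
    rw [← hι', ι'.symm_apply_apply] at this
    exact this
  have h3 : ∀ y : κ.range, ι' y ∈ κ'.range := by
    rintro ⟨_, ⟨w, rfl⟩⟩
    obtain ⟨w', hw'⟩ := h1 w
    exact ⟨w', hw'.symm⟩
  have h4 : κ.range.map ι'.toMonoidHom = κ'.range := by
    ext y
    constructor
    · rintro ⟨_, ⟨w, rfl⟩, rfl⟩
      obtain ⟨w', hw'⟩ := h1 w
      exact ⟨w', hw'.symm⟩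
    · rintro ⟨w', rfl⟩
      obtain ⟨w, hw⟩ := h2 w'
      refine ⟨κ w, ⟨w, rfl⟩, ?_⟩
      rw [← hw]
      exact ι'.apply_symm_apply _
  exact ⟨(MonoidHom.ofInjective hκ).trans ((ι'.subgroupMap κ.range).trans
    ((MulEquiv.subgroupCongr h4).trans (MonoidHom.ofInjective hκ').symm))⟩

theorem inv : StmInv := by
  intro U _ a b β β' tf hβ hβ' ⟨ι⟩
  obtain ⟨θ⟩ := iso_cent U _ _ β β' tf hβ hβ' ι
  have key : ∀ a : ℕ, ((2 : ℤ) ^ (a + 1) = ((2 ^ (a + 1) : ℕ) : ℤ)) ∧ 2 ≤ 2 ^ (a + 1) := by
    intro a
    refine ⟨by norm_cast, ?_⟩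
    calc 2 = 2 ^ 1 := by norm_num
      _ ≤ 2 ^ (a + 1) := Nat.pow_le_pow_right (by norm_num) (by omega)
  have h1 := dvd_of_hom _ _ _ (key b).1 (key b).2 θ
  have h2 := dvd_of_hom _ _ _ (key a).1 (key a).2 θ.symm
  rw [(key a).1, (key b).1] at h1 h2
  have h3 : 2 ^ (a + 1) = 2 ^ (b + 1) :=
    Nat.dvd_antisymm (Int.natCast_dvd_natCast.1 h2) (Int.natCast_dvd_natCast.1 h1)
  have := Nat.pow_right_injective (le_refl 2) h3
  omega

end Pool.Agent.R702.ISO
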