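import Pool.Agent.Y817.ISO.Stm

set_option autoImplicit false

/-!
Project ISO (S14615): the part MODEL.
-/

namespace Pool.Agent.R702.ISO

open Pool.Agent.Y817.ISO Cardinal

/-- labels -/
abbrev WW (V : Type) : Type := (V × Set V) × ℕ

/-- points -/
abbrev YY (V : Type) : Type := V × (Set V × WW V)

theorem dec {E V : Type} [AddCommGroup E] [AddCommGroup V] (μ : E →+ V)
    (hμ : Function.Injective μ) (a : V) :
    ∃ (N : Type) (pat : N → Set E) (Ψ : E × N ≃ YY V),
      (∀ e w n, Ψ (e + w, n) = ((Ψ (e, n)).1 + μ w, (Ψ (e, n)).2)) ∧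
      (∀ e n, (Ψ (e, n)).1 ∈ (Ψ (e, n)).2.1 ↔ e ∈ pat n) ∧
      (∀ z, ∃ n, Ψ (0, n) = (a, z)) ∧ ∀ A : Set E, #{n // pat n = A} = #(WW V) := by
  classical
  let Q := V ⧸ μ.range
  let s : Q → V := fun q => if q = QuotientAddGroup.mk a then a else q.out
  have hs : ∀ q : Q, (QuotientAddGroup.mk (s q) : Q) = q := by
    intro q
    by_cases h : q = QuotientAddGroup.mk a
    · simp only [s, if_pos h]
      exact h.symm
    · simp only [s, if_neg h]
      exact Quotient.out_eq q
  have hsa : s (QuotientAddGroup.mk a) = a := by simp [s]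
  have hb : Function.Bijective (fun p : E × Q => s p.2 + μ p.1) := by
    constructor
    · rintro ⟨e, q⟩ ⟨e', q'⟩ h
      simp only at h
      have h1 : q = q' := by
        have h2 := congrArg (QuotientAddGroup.mk : V → Q) h
        have h3 : ∀ (q : Q) (e : E), (QuotientAddGroup.mk (s q + μ e) : Q) = q := by
          intro q e
          have h4 : (QuotientAddGroup.mk (s q + μ e) : Q) = QuotientAddGroup.mk (s q) :=
            QuotientAddGroup.mk_add_of_mem _ ⟨e, rfl⟩
          rw [h4, hs]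
        rwa [h3, h3] at h2
      subst h1
      rw [hμ (add_left_cancel h)]
    · intro v
      have h1 : (QuotientAddGroup.mk (s (QuotientAddGroup.mk v)) : Q) = QuotientAddGroup.mk v :=
        hs _
      rw [QuotientAddGroup.eq] at h1
      obtain ⟨e, he⟩ := h1
      exact ⟨(e, QuotientAddGroup.mk v), by simp only; rw [he]; abel⟩
  let Θ : E × Q ≃ V := Equiv.ofBijective _ hb
  have hΘ : ∀ e q, Θ (e, q) = s q + μ e := fun _ _ => rfl
  let Ψ : E × (Q × (Set V × WW V)) ≃ YY V :=
    (Equiv.prodAssoc E Q (Set V × WW V)).symm.trans (Equiv.prodCongr Θ (Equiv.refl _))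
  have hΨ : ∀ e q z, Ψ (e, (q, z)) = (s q + μ e, z) := fun _ _ _ => rfl
  refine ⟨Q × (Set V × WW V), fun n => {e | s n.1 + μ e ∈ n.2.1}, Ψ, ?_, ?_, ?_, ?_⟩
  · rintro e w ⟨q, z⟩
    rw [hΨ, hΨ, map_add, add_assoc]
  · rintro e ⟨q, z⟩
    rw [hΨ]
    rfl
  · intro z
    refine ⟨(QuotientAddGroup.mk a, z), ?_⟩
    rw [hΨ, map_zero, add_zero, hsa]
  · intro A
    let B := {m : Q × Set V // {e | s m.1 + μ e ∈ m.2} = A}
    have e1 : {n : Q × (Set V × WW V) // {e | s n.1 + μ e ∈ n.2.1} = A} ≃ B × WW V :=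
      { toFun := fun n => (⟨(n.1.1, n.1.2.1), n.2⟩, n.1.2.2)
        invFun := fun n => ⟨(n.1.1.1, (n.1.1.2, n.2)), n.1.2⟩
        left_inv := fun n => rfl
        right_inv := fun n => rfl }
    rw [Cardinal.mk_congr e1, Cardinal.mk_prod, Cardinal.lift_id, Cardinal.lift_id]
    have hinf : ℵ₀ ≤ #(WW V) := by
      rw [Cardinal.aleph0_le_mk_iff]
      infer_instance
    have hle : #B ≤ #(WW V) := by
      refine Cardinal.mk_le_of_injective (f := fun m : B => (((s m.1.1, m.1.2), 0) : WW V)) ?_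
      rintro ⟨⟨q, S⟩, h⟩ ⟨⟨q', S'⟩, h'⟩ hh
      simp only [Prod.mk.injEq, and_true] at hh
      have hq : q = q' := by rw [← hs q, hh.1, hs q']
      subst hq
      have hS : S = S' := hh.2
      subst hS
      rfl
    have hne : #B ≠ 0 := by
      rw [Cardinal.mk_ne_zero_iff]
      refine ⟨⟨(QuotientAddGroup.mk a, (fun e => a + μ e) '' A), ?_⟩⟩
      ext e
      simp only [hsa, Set.mem_ofPred_eq, Set.mem_image, add_right_inj]
      constructor
      · rintro ⟨e', he', h⟩
        rwa [← hμ h]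
      · intro he
        exact ⟨e, he, rfl⟩
    exact Cardinal.mul_eq_right hinf hle hne

/-- The base label. -/
def x0 (V : Type) [AddCommGroup V] : WW V := ((0, ∅), 0)

theorem equivariant {E V : Type} [AddCommGroup E] [AddCommGroup V] (μ ν : E →+ V)
    (hμ : Function.Injective μ) (hν : Function.Injective ν) (a b : V) (S S' : Set V)
    (h : ∀ w, μ w + a ∈ S ↔ ν w + b ∈ S') :
    ∃ r : YY V ≃ YY V, (∀ u z w, r (u + μ w, z) = ((r (u, z)).1 + ν w, (r (u, z)).2)) ∧
      r (a, (S, x0 V)) = (b, (S', x0 V)) ∧ ∀ y, (r y).1 ∈ (r y).2.1 ↔ y.1 ∈ y.2.1 := by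
  classical
  obtain ⟨N, pat, Ψ, h1, h2, h3, h4⟩ := dec μ hμ a
  obtain ⟨N', pat', Ψ', h1', h2', h3', h4'⟩ := dec ν hν b
  obtain ⟨n, hn⟩ := h3 (S, x0 V)
  obtain ⟨n', hn'⟩ := h3' (S', x0 V)
  have hpn : pat n = pat' n' := by
    ext e
    rw [← h2, ← h2']
    have e1 := h1 0 e n
    have e2 := h1' 0 e n'
    rw [zero_add, hn] at e1
    rw [zero_add, hn'] at e2
    rw [e1, e2]
    simp only
    rw [add_comm a, add_comm b]
    exact h e
  have he : ∀ A : Set E, Nonempty ({n // pat n = A} ≃ {n // pat' n = A}) := by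
    intro A
    rw [← Cardinal.eq, h4, h4']
  let h0 : N ≃ N' := (Equiv.sigmaFiberEquiv pat).symm.trans
    ((Equiv.sigmaCongrRight (fun A => (he A).some)).trans (Equiv.sigmaFiberEquiv pat'))
  have hh0 : ∀ m, pat' (h0 m) = pat m := by
    intro m
    show pat' (((he (pat m)).some ⟨m, rfl⟩ : {n // pat' n = pat m}) : N') = pat m
    exact ((he (pat m)).some ⟨m, rfl⟩).2
  let h' : N ≃ N' := h0.trans (Equiv.swap (h0 n) n')
  have hh' : ∀ m, pat' (h' m) = pat m := by
    intro m
    show pat' (Equiv.swap (h0 n) n' (h0 m)) = pat m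
    by_cases e1 : h0 m = h0 n
    · rw [e1, Equiv.swap_apply_left, ← hpn, h0.injective e1]
    · by_cases e2 : h0 m = n'
      · rw [e2, Equiv.swap_apply_right, hh0, hpn, ← e2, hh0]
      · rw [Equiv.swap_apply_of_ne_of_ne e1 e2, hh0]
  have hh'n : h' n = n' := by
    show Equiv.swap (h0 n) n' (h0 n) = n'
    rw [Equiv.swap_apply_left]
  let r : YY V ≃ YY V := Ψ.symm.trans (((Equiv.refl E).prodCongr h').trans Ψ')
  have hr : ∀ e m, r (Ψ (e, m)) = Ψ' (e, h' m) := by
    intro e m
    show Ψ' (((Equiv.refl E).prodCongr h') (Ψ.symm (Ψ (e, m)))) = _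
    rw [Equiv.symm_apply_apply]
    rfl
  refine ⟨r, ?_, ?_, ?_⟩
  · intro u z w
    obtain ⟨⟨e, m⟩, hem⟩ := Ψ.surjective (u, z)
    have e1 := h1 e w m
    rw [hem] at e1
    simp only at e1
    rw [← e1, ← hem, hr, hr, h1']
  · rw [← hn, hr, hh'n, hn']
  · intro y
    obtain ⟨⟨e, m⟩, rfl⟩ := Ψ.surjective y
    rw [hr, h2', h2, hh']

/-- translations -/
def trX (V : Type) [AddCommGroup V] : Multiplicative V →* Equiv.Perm (YY V × Bool) where
  toFun v :=
    { toFun := fun y => ((y.1.1 - v.toAdd, y.1.2), y.2)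
      invFun := fun y => ((y.1.1 + v.toAdd, y.1.2), y.2)
      left_inv := fun y => by simp
      right_inv := fun y => by simp }
  map_one' := by
    ext y <;> simp
  map_mul' v w := by
    apply Equiv.ext
    rintro ⟨⟨u, z⟩, b⟩
    simp only [toAdd_mul, Equiv.coe_fn_mk, Equiv.Perm.coe_mul, Function.comp_apply, Prod.mk.injEq,
      and_true]
    abel

theorem model : StmModel := by
  classical
  intro P ι J _ D C hC
  let V := J → ℤ
  have hx : ∀ i, ∃ r : YY V ≃ YY V,
      (∀ u z w, r (u + D.μ i w, z) = ((r (u, z)).1 + D.ν i w, (r (u, z)).2)) ∧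
      r (D.a i, ({v | C (D.src i) v}, x0 V)) = (D.b i, ({v | C (D.tgt i) v}, x0 V)) ∧
      ∀ y, (r y).1 ∈ (r y).2.1 ↔ y.1 ∈ y.2.1 := fun i =>
    equivariant (D.μ i) (D.ν i) (D.μ_inj i) (D.ν_inj i) (D.a i) (D.b i) _ _ (hC i)
  choose r hr1 hr2 hr3 using hx
  let M := Equiv.Perm (YY V × Bool)
  let y0 : P → V → YY V := fun p v => (v, ({v | C p v}, x0 V))
  let t : P → M := fun p => Equiv.swap (y0 p 0, false) (y0 p 0, true)
  let R : ι → M := fun i => Equiv.prodCongr (r i) (Equiv.refl Bool)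
  have hT : ∀ p v, T (trX V) t p v = Equiv.swap (y0 p v, false) (y0 p v, true) := by
    intro p v
    have e1 : ∀ b : Bool, (trX V (Multiplicative.ofAdd v))⁻¹ (y0 p 0, b) = (y0 p v, b) := by
      intro b
      rw [Equiv.Perm.inv_eq_iff_eq]
      show _ = ((v - v, _), b)
      rw [sub_self]
    have e2 := Equiv.swap_apply_apply (trX V (Multiplicative.ofAdd v))⁻¹ (y0 p 0, false)
      (y0 p 0, true)
    rw [e1, e1, inv_inv] at e2
    exact e2.symm
  refine ⟨M, inferInstance, trX V, t, R, ⟨?_, ?_⟩, ?_⟩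
  · intro i w
    apply Equiv.ext
    rintro ⟨⟨u, z⟩, b⟩
    show (r i (u - D.μ i w, z), b) = (((r i (u, z)).1 - D.ν i w, (r i (u, z)).2), b)
    have e1 := hr1 i (u - D.μ i w) z w
    rw [sub_add_cancel] at e1
    rw [e1]
    simp
  · intro i
    rw [hT, hT]
    have e2 := Equiv.swap_apply_apply (R i) (y0 (D.src i) (D.a i), false)
      (y0 (D.src i) (D.a i), true)
    have e3 : ∀ b : Bool, R i (y0 (D.src i) (D.a i), b) = (y0 (D.tgt i) (D.b i), b) := by
      intro b
      show (r i _, b) = _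
      rw [hr2]
    rw [e3, e3] at e2
    rw [e2, inv_mul_cancel_right]
  · let E : YY V × Bool → Prop := fun y => y.2 = true ∧ y.1.1 ∉ y.1.2.1
    let St : Subgroup M :=
      { carrier := {σ | ∀ y, E (σ y) ↔ E y}
        one_mem' := fun y => Iff.rfl
        mul_mem' := by
          intro σ τ hσ hτ y
          exact (hσ (τ y)).trans (hτ y)
        inv_mem' := by
          intro σ hσ y
          have := hσ (σ⁻¹ y)
          have e1 : σ (σ⁻¹ y) = y := Equiv.apply_symm_apply σ y
          rw [e1] at this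
          exact this.symm }
    refine ⟨St, ?_, ?_⟩
    · intro i y
      show ((y.2 = true) ∧ _) ↔ _
      exact and_congr Iff.rfl (not_congr (hr3 i y.1))
    · intro p v
      rw [hT]
      constructor
      · intro h
        by_contra hCv
        have h1 := h (y0 p v, false)
        rw [Equiv.swap_apply_left] at h1
        have h2 : E (y0 p v, true) := ⟨rfl, hCv⟩
        exact absurd (h1.1 h2).1 (by simp)
      · intro hCv y
        by_cases e1 : y = (y0 p v, false)
        · rw [e1, Equiv.swap_apply_left]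
          constructor
          · intro h; exact absurd hCv h.2
          · intro h; exact absurd hCv h.2
        · by_cases e2 : y = (y0 p v, true)
          · rw [e2, Equiv.swap_apply_right]
            constructor
            · intro h; exact absurd hCv h.2
            · intro h; exact absurd hCv h.2
          · rw [Equiv.swap_apply_of_ne_of_ne e1 e2]

end Pool.Agent.R702.ISO
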