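import Pool.Agent.R702.ISO.Mhnn
import Pool.Agent.R702.ISO.Base
import Pool.Agent.R702.ISO.Model

set_option autoImplicit false

/-!
Project ISO (S14615): the part KK.
-/

namespace Pool.Agent.R702.ISO

open Pool.Agent.Y817.ISO

theorem map_T {P J G H : Type} [Group G] [Group H] (Φ : G →* H)
    (X : Multiplicative (J → ℤ) →* G) (t : P → G) (X' : Multiplicative (J → ℤ) →* H)
    (t' : P → H) (hX : ∀ v, Φ (X v) = X' v) (ht : ∀ p, Φ (t p) = t' p) (p : P) (v : J → ℤ) :
    Φ (T X t p v) = T X' t' p v := by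
  unfold T
  rw [map_mul, map_mul, map_inv, hX, ht]

theorem T_add {P J H : Type} [Group H] (X : Multiplicative (J → ℤ) →* H) (t : P → H) (p : P)
    (v w : J → ℤ) : T X t p (v + w) =
      (X (Multiplicative.ofAdd v))⁻¹ * T X t p w * X (Multiplicative.ofAdd v) := by
  unfold T
  rw [add_comm, ofAdd_add, map_mul]
  group

theorem kk : StmK := by
  intro P ι J _ _ D
  obtain ⟨btf, bcl, bup, bemb⟩ := base P J
  choose f hf1 hf2 hf3 using fun i =>
    bemb (D.dim i) (D.μ i) (D.μ_inj i) (D.src i) (D.a i)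
  choose g hg1 hg2 hg3 using fun i =>
    bemb (D.dim i) (D.ν i) (D.ν_inj i) (D.tgt i) (D.b i)
  obtain ⟨K, _, o, r, hi, hr, htf, hcl, hup⟩ := mhnn (G0 P J) ι
    (fun i => G0 Unit (Fin (D.dim i))) f g hf1 hg1
  let X : Multiplicative (J → ℤ) →* K := o.comp (X0 P J)
  let t : P → K := fun p => o (t0 p)
  have hoT : ∀ p v, o (T (X0 P J) t0 p v) = T X t p v := fun p v =>
    map_T o _ _ X t (fun _ => rfl) (fun _ => rfl) p v
  have hrel : Rel D K X t r := by
    constructor
    · intro i w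
      have h1 := hr i (X0 Unit (Fin (D.dim i)) (Multiplicative.ofAdd w))
      rw [hf2, hg2] at h1
      exact h1
    · intro i
      have h1 := hr i (t0 ())
      rw [hf3, hg3, hoT, hoT] at h1
      exact h1
  have up : ∀ (H : Type) [Group H] (X' : Multiplicative (J → ℤ) →* H) (t' : P → H)
      (r' : ι → H), Rel D H X' t' r' → ∃ Φ : K →* H, (∀ v, Φ (X v) = X' v) ∧
        (∀ p, Φ (t p) = t' p) ∧ ∀ i, Φ (r i) = r' i := by
    intro H _ X' t' r' hR
    obtain ⟨Φ0, h1, h2⟩ := bup H X' t'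
    have hT0 : ∀ p v, Φ0 (T (X0 P J) t0 p v) = T X' t' p v := fun p v =>
      map_T Φ0 _ _ X' t' h1 h2 p v
    obtain ⟨Φ, h3, h4⟩ := hup H Φ0 r' (by
      intro i q
      have hcl' := (base Unit (Fin (D.dim i))).2.1
      have he : (MulAut.conj (r' i)).toMonoidHom.comp (Φ0.comp (f i)) = Φ0.comp (g i) := by
        refine MonoidHom.eq_of_eqOn_dense hcl' ?_
        rintro y (⟨w, rfl⟩ | ⟨⟨⟩, rfl⟩)
        · show (MulAut.conj (r' i)) (Φ0 (f i (X0 _ _ w))) = Φ0 (g i (X0 _ _ w))
          have e1 := hf2 i w.toAdd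
          have e2 := hg2 i w.toAdd
          rw [ofAdd_toAdd] at e1 e2
          rw [e1, e2, h1, h1, MulAut.conj_apply, mul_inv_eq_iff_eq_mul]
          exact hR.shift i w.toAdd
        · show (MulAut.conj (r' i)) (Φ0 (f i (t0 ()))) = Φ0 (g i (t0 ()))
          rw [hf3, hg3, hT0, hT0, MulAut.conj_apply, mul_inv_eq_iff_eq_mul]
          exact hR.rule i
      have h5 := DFunLike.congr_fun he q
      have h6 : r' i * Φ0 (f i q) * (r' i)⁻¹ = Φ0 (g i q) := h5
      rw [← h6, inv_mul_cancel_right])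
    exact ⟨Φ, fun v => (h3 _).trans (h1 v), fun p => (h3 _).trans (h2 p), h4⟩
  refine ⟨K, inferInstance, X, t, r, hrel, htf btf, ?_, up, ?_⟩
  · rw [eq_top_iff, ← hcl, Subgroup.closure_le]
    rintro y (⟨k, rfl⟩ | ⟨i, rfl⟩)
    · have h1 : k ∈ Subgroup.closure (Set.range (X0 P J) ∪ Set.range (t0 : P → G0 P J)) := by
        rw [bcl]; trivial
      have h2 : o k ∈ (Subgroup.closure
          (Set.range (X0 P J) ∪ Set.range (t0 : P → G0 P J))).map o := ⟨k, h1, rfl⟩
      rw [MonoidHom.map_closure] at h2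
      refine Subgroup.closure_mono ?_ h2
      rintro _ ⟨w, (⟨x, rfl⟩ | ⟨p, rfl⟩), rfl⟩
      · exact Or.inl (Or.inl ⟨x, rfl⟩)
      · exact Or.inl (Or.inr ⟨p, rfl⟩)
    · exact Subgroup.subset_closure (Or.inr ⟨i, rfl⟩)
  · intro p p' v v'
    constructor
    · rintro ⟨ρ, hρ, hT⟩
      let C : P → (J → ℤ) → Prop := fun q w => Relation.EqvGen (Step D) (q, w) (p', v')
      have hC : ∀ i w, C (D.src i) (D.μ i w + D.a i) ↔ C (D.tgt i) (D.ν i w + D.b i) := by
        intro i w
        have h1 : Relation.EqvGen (Step D) (D.src i, D.μ i w + D.a i)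
            (D.tgt i, D.ν i w + D.b i) := Relation.EqvGen.rel _ _ (Step.mk i w)
        exact ⟨fun h => (h1.symm _ _).trans _ _ _ h, fun h => h1.trans _ _ _ h⟩
      obtain ⟨M, _, X', t', r', hR, St, hSt1, hSt2⟩ := model P ι J D C hC
      obtain ⟨Φ, h1, h2, h3⟩ := up M X' t' r' hR
      have h4 := congrArg Φ hT
      rw [map_mul, map_mul, map_inv, map_T Φ X t X' t' h1 h2, map_T Φ X t X' t' h1 h2] at h4
      have h5 : Φ ρ ∈ St := by
        have h6 : Subgroup.closure (Set.range r) ≤ St.comap Φ := by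
          rw [Subgroup.closure_le]
          rintro _ ⟨i, rfl⟩
          show Φ (r i) ∈ St
          rw [h3]
          exact hSt1 i
        exact h6 hρ
      have h7 : T X' t' p' v' ∈ St := (hSt2 p' v').2 (Relation.EqvGen.refl _)
      have h8 : T X' t' p v ∈ St := by
        rw [h4]
        exact St.mul_mem (St.mul_mem h5 h7) (St.inv_mem h5)
      exact (hSt2 p v).1 h8
    · intro h
      have key : ∀ c c' : P × (J → ℤ), Relation.EqvGen (Step D) c c' →
          ∃ ρ ∈ Subgroup.closure (Set.range r), T X t c.1 c.2 = ρ * T X t c'.1 c'.2 * ρ⁻¹ := by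
        intro c c' hc
        induction hc with
        | rel c c' h =>
          obtain ⟨i, w⟩ := h
          refine ⟨(r i)⁻¹, Subgroup.inv_mem _ (Subgroup.subset_closure ⟨i, rfl⟩), ?_⟩
          simp only
          rw [T_add, T_add, inv_inv]
          have e1 := hrel.shift i w
          have e2 := hrel.rule i
          have e3 : r i * (X (Multiplicative.ofAdd (D.μ i w)))⁻¹ =
              (X (Multiplicative.ofAdd (D.ν i w)))⁻¹ * r i := by
            rw [mul_inv_eq_iff_eq_mul, mul_assoc, e1, inv_mul_cancel_left]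
          calc (X (Multiplicative.ofAdd (D.μ i w)))⁻¹ * T X t (D.src i) (D.a i) *
                X (Multiplicative.ofAdd (D.μ i w))
              = (r i)⁻¹ * (r i * (X (Multiplicative.ofAdd (D.μ i w)))⁻¹) *
                T X t (D.src i) (D.a i) * X (Multiplicative.ofAdd (D.μ i w)) := by group
            _ = (r i)⁻¹ * (X (Multiplicative.ofAdd (D.ν i w)))⁻¹ *
                (r i * T X t (D.src i) (D.a i)) * X (Multiplicative.ofAdd (D.μ i w)) := by
                rw [e3]; simp only [mul_assoc]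
            _ = (r i)⁻¹ * (X (Multiplicative.ofAdd (D.ν i w)))⁻¹ *
                T X t (D.tgt i) (D.b i) * (r i * X (Multiplicative.ofAdd (D.μ i w))) := by
                rw [e2]; simp only [mul_assoc]
            _ = _ := by rw [e1]; simp only [mul_assoc]
        | refl c => exact ⟨1, Subgroup.one_mem _, by simp⟩
        | symm c c' _ ih =>
          obtain ⟨ρ, hρ, h⟩ := ih
          refine ⟨ρ⁻¹, Subgroup.inv_mem _ hρ, ?_⟩
          rw [h]
          group
        | trans c c' c'' _ _ ih1 ih2 =>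
          obtain ⟨ρ, hρ, h⟩ := ih1
          obtain ⟨ρ', hρ', h'⟩ := ih2
          refine ⟨ρ * ρ', Subgroup.mul_mem _ hρ hρ', ?_⟩
          rw [h, h']
          group
      exact key _ _ h

end Pool.Agent.R702.ISO
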