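import Pool.Agent.R702.ISO.Tower

set_option autoImplicit false

/-!
Project ISO (S14615): the part MHNN.
-/

namespace Pool.Agent.R702.ISO

open Pool.Agent.Y817.ISO
open HNNExtension

/-- one stable letter -/
theorem oneHNN (G : Type) [Group G] (Q : Type) [Group Q] (f g : Q →* G)
    (hf : Function.Injective f) (hg : Function.Injective g) :
    ∃ (K : Type) (_ : Group K) (o : G →* K) (r : K), Function.Injective o ∧
      (∀ q, r * o (f q) = o (g q) * r) ∧ (TF G → TF K) ∧
      Subgroup.closure (Set.range o ∪ {r}) = ⊤ ∧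
      ∀ (H : Type) [Group H] (φ : G →* H) (s : H), (∀ q, s * φ (f q) = φ (g q) * s) →
        ∃ Φ : K →* H, (∀ x, Φ (o x) = φ x) ∧ Φ r = s := by
  let e : f.range ≃* g.range :=
    (MonoidHom.ofInjective hf).symm.trans (MonoidHom.ofInjective hg)
  have he : ∀ q : Q, ((e ⟨f q, ⟨q, rfl⟩⟩ : g.range) : G) = g q := by
    intro q
    have : (MonoidHom.ofInjective hf).symm ⟨f q, ⟨q, rfl⟩⟩ = q := by
      rw [MulEquiv.symm_apply_eq]
      rfl
    show (((MonoidHom.ofInjective hg) ((MonoidHom.ofInjective hf).symm ⟨f q, ⟨q, rfl⟩⟩) :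
      g.range) : G) = g q
    rw [this]
    rfl
  refine ⟨HNNExtension G f.range g.range e, inferInstance, of, t, of_injective e, ?_,
    fun h => hnn_tf e h, ?_, ?_⟩
  · intro q
    have := t_mul_of (φ := e) ⟨f q, ⟨q, rfl⟩⟩
    rw [he] at this
    exact this
  · have h1 := hnn_closure e (⊤ : Set G) (by simp)
    rw [← h1]
    congr 1
    ext y
    simp
  · intro H _ φ s h
    obtain ⟨Φ, h1, h2⟩ := exLift e φ s (by
      rintro ⟨_, ⟨q, rfl⟩⟩
      rw [he]
      exact h q)
    exact ⟨Φ, h1, h2⟩

/-- MHNN for a subset of the index set -/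
theorem mhnn_aux (G : Type) [Group G] (ι : Type) (Q : ι → Type)
    [∀ i, Group (Q i)] (f g : ∀ i, Q i →* G) (hf : ∀ i, Function.Injective (f i))
    (hg : ∀ i, Function.Injective (g i)) (F : Finset ι) :
    ∃ (K : Type) (_ : Group K) (o : G →* K) (r : ι → K), Function.Injective o ∧
      (∀ i ∈ F, ∀ q, r i * o (f i q) = o (g i q) * r i) ∧ (TF G → TF K) ∧
      Subgroup.closure (Set.range o ∪ r '' F) = ⊤ ∧
      ∀ (H : Type) [Group H] (φ : G →* H) (s : ι → H),
        (∀ i ∈ F, ∀ q, s i * φ (f i q) = φ (g i q) * s i) →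
        ∃ Φ : K →* H, (∀ x, Φ (o x) = φ x) ∧ ∀ i ∈ F, Φ (r i) = s i := by
  classical
  induction F using Finset.induction_on with
  | empty =>
    refine ⟨G, inferInstance, MonoidHom.id G, fun _ => 1, Function.injective_id, by simp,
      fun h => h, ?_, ?_⟩
    · rw [eq_top_iff]
      intro x _
      exact Subgroup.subset_closure (Or.inl ⟨x, rfl⟩)
    · intro H _ φ s _
      exact ⟨φ, fun _ => rfl, by simp⟩
  | insert j F hj ih =>
    obtain ⟨K, _, o, r, hi, hr, htf, hcl, hup⟩ := ih
    obtain ⟨K', _, o', r', hi', hr', htf', hcl', hup'⟩ := oneHNN K (Q j) (o.comp (f j))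
      (o.comp (g j)) (hi.comp (hf j)) (hi.comp (hg j))
    refine ⟨K', inferInstance, o'.comp o, fun i => if i = j then r' else o' (r i),
      hi'.comp hi, ?_, fun h => htf' (htf h), ?_, ?_⟩
    · intro i hiF q
      by_cases hij : i = j
      · subst hij
        simp only [if_true]
        exact hr' q
      · simp only [if_neg hij]
        have h1 := hr i (Finset.mem_of_mem_insert_of_ne hiF hij) q
        have h2 := congrArg o' h1
        rw [map_mul, map_mul] at h2
        exact h2
    · rw [eq_top_iff, ← hcl', Subgroup.closure_le]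
      rintro y (⟨k, rfl⟩ | rfl)
      · have h1 : k ∈ Subgroup.closure (Set.range o ∪ r '' F) := by rw [hcl]; trivial
        have h2 : o' k ∈ (Subgroup.closure (Set.range o ∪ r '' F)).map o' := ⟨k, h1, rfl⟩
        rw [MonoidHom.map_closure] at h2
        refine Subgroup.closure_mono ?_ h2
        rintro _ ⟨w, (⟨x, rfl⟩ | ⟨i, hiF, rfl⟩), rfl⟩
        · exact Or.inl ⟨x, rfl⟩
        · refine Or.inr ⟨i, ?_, ?_⟩
          · simp only [Finset.coe_insert]
            exact Or.inr hiF
          · have : i ≠ j := by rintro rfl; exact hj hiF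
            simp only [if_neg this]
      · exact Subgroup.subset_closure (Or.inr ⟨j, by simp, by simp⟩)
    · intro H _ φ s hs
      obtain ⟨Φ, h1, h2⟩ := hup H φ s (fun i hiF => hs i (Finset.mem_insert_of_mem hiF))
      obtain ⟨Φ', h1', h2'⟩ := hup' H Φ (s j) (by
        intro q
        show s j * Φ (o (f j q)) = Φ (o (g j q)) * s j
        rw [h1, h1]
        exact hs j (Finset.mem_insert_self j F) q)
      refine ⟨Φ', fun x => (h1' _).trans (h1 x), ?_⟩
      intro i hiF
      by_cases hij : i = j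
      · subst hij
        simp only [if_true]
        exact h2'
      · simp only [if_neg hij]
        rw [h1']
        exact h2 i (Finset.mem_of_mem_insert_of_ne hiF hij)

theorem mhnn : StmMHNN := by
  intro G _ ι _ Q _ f g hf hg
  have := Fintype.ofFinite ι
  obtain ⟨K, _, o, r, hi, hr, htf, hcl, hup⟩ := mhnn_aux G ι Q f g hf hg Finset.univ
  refine ⟨K, inferInstance, o, r, hi, fun i => hr i (Finset.mem_univ i), htf, ?_, ?_⟩
  · rw [← hcl]
    simp
  · intro H _ φ s hs
    obtain ⟨Φ, h1, h2⟩ := hup H φ s (fun i _ => hs i)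
    exact ⟨Φ, h1, fun i => h2 i (Finset.mem_univ i)⟩

end Pool.Agent.R702.ISO
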