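import Pool.Agent.R702.ISO.Hnn

set_option autoImplicit false

/-!
Project ISO (S14615): HNN extensions of torsion-free groups are torsion-free (after
`Pool.Agent.Helper694.CS.J_hnn_tf`).
-/

namespace Pool.Agent.R702.ISO

open Pool.Agent.Y817.ISO
open HNNExtension HNNExtension.NormalWord

theorem lp_append {K : Type} [Group K] {A B : Subgroup K} (φ : A ≃* B) (l l' : List (ℤˣ × K)) :
    lp φ (l ++ l') = lp φ l * lp φ l' := by
  simp [lp]

theorem lp_rep {K : Type} [Group K] {A B : Subgroup K} (φ : A ≃* B) (l : List (ℤˣ × K)) (m : ℕ) :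
    lp φ ((List.replicate m l).flatten) = (lp φ l) ^ m := by
  induction m with
  | zero => simp [lp]
  | succ m ih =>
    rw [List.replicate_succ, List.flatten_cons, lp_append, ih, pow_succ']

theorem cyc {K : Type} [Group K] {A B : Subgroup K} (φ : A ≃* B) (l : List (ℤˣ × K))
    (hl : l ≠ [])
    (hc : l.IsChain (fun a b => a.2 ∈ toSubgroup A B a.1 → a.1 = b.1))
    (hh : ∀ x ∈ l.getLast?, ∀ y ∈ l.head?, x.2 ∈ toSubgroup A B x.1 → x.1 = y.1) :
    ¬ IsOfFinOrder (lp φ l) := by
  intro h
  obtain ⟨m, hm, hp⟩ := isOfFinOrder_iff_pow_eq_one.1 h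
  have hch : ((List.replicate m l).flatten).IsChain
      (fun a b => a.2 ∈ toSubgroup A B a.1 → a.1 = b.1) := by
    rw [List.isChain_flatten]
    · refine ⟨?_, ?_⟩
      · intro l' hl'
        rw [List.eq_of_mem_replicate hl']; exact hc
      · exact List.isChain_replicate_of_rel m hh
    · intro h'
      exact hl (List.eq_of_mem_replicate h').symm
  have := ReducedWord.toList_eq_nil_of_mem_of_range φ
    (⟨1, (List.replicate m l).flatten, hch⟩ : ReducedWord K A B) (by
      have : (⟨1, (List.replicate m l).flatten, hch⟩ : ReducedWord K A B).prod φ = 1 := by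
        show of 1 * lp φ ((List.replicate m l).flatten) = 1
        rw [lp_rep, hp, map_one, one_mul]
      rw [this]
      exact one_mem _)
  simp only [List.flatten_eq_nil_iff] at this
  exact hl (this l (List.mem_replicate.2 ⟨by omega, rfl⟩))

theorem conj_fin {G : Type} [Group G] (a b : G) (h : IsOfFinOrder a) : IsOfFinOrder (b * a * b⁻¹) := by
  have := MonoidHom.isOfFinOrder (MulAut.conj b).toMonoidHom h
  simpa using this

/-- right multiplication by a base element. -/
theorem rmul {K : Type} [Group K] {A B : Subgroup K} (φ : A ≃* B) (h k : K) (l : List (ℤˣ × K))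
    (hc : l.IsChain (fun a b => a.2 ∈ toSubgroup A B a.1 → a.1 = b.1)) :
    ∃ w : ReducedWord K A B, w.prod φ = of h * lp φ l * of k ∧ w.toList.length = l.length := by
  rcases List.eq_nil_or_concat' l with rfl | ⟨L, ⟨e, x⟩, rfl⟩
  · refine ⟨⟨h * k, [], List.isChain_nil⟩, ?_, rfl⟩
    show of (h * k) * lp φ [] = _
    simp [lp]
  · refine ⟨⟨h, L ++ [(e, x * k)], ?_⟩, ?_, by simp⟩
    · rw [List.isChain_append] at hc ⊢
      refine ⟨hc.1, by simp, ?_⟩
      intro a ha b hb
      have := hc.2.2 a ha (e, x) (by simp)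
      simp only [List.head?_cons, Option.mem_def, Option.some.injEq] at hb
      subst hb
      exact this
    · show of h * lp φ (L ++ [(e, x * k)]) = _
      rw [lp_append, lp_append]
      simp [lp, mul_assoc]

theorem slide {K : Type} [Group K] {A B : Subgroup K} (φ : A ≃* B) (e : ℤˣ) (y : K)
    (hy : y ∈ toSubgroup A B e) :
    ∃ k : K, (t : HNNExtension K A B φ) ^ (e : ℤ) * of y = of k * t ^ (e : ℤ) := by
  rcases Int.units_eq_one_or e with rfl | rfl
  · refine ⟨φ ⟨y, hy⟩, ?_⟩
    have := t_mul_of (φ := φ) ⟨y, hy⟩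
    simpa using this
  · refine ⟨φ.symm ⟨y, hy⟩, ?_⟩
    have := inv_t_mul_of (φ := φ) ⟨y, hy⟩
    simpa using this

theorem main {K : Type} [Group K] {A B : Subgroup K} (φ : A ≃* B)
    (tf : ∀ k : K, k ≠ 1 → ¬ IsOfFinOrder k) (n : ℕ) :
    ∀ w : ReducedWord K A B, w.toList.length = n → w.prod φ ≠ 1 → ¬ IsOfFinOrder (w.prod φ) := by
  induction n using Nat.strong_induction_on with
  | _ n ih =>
  rintro ⟨h, l, hc⟩ hn hne hfin
  simp only at hn
  have e0 : (⟨h, l, hc⟩ : ReducedWord K A B).prod φ = of h * lp φ l := rfl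
  rw [e0] at hne hfin
  rcases List.eq_nil_or_concat' l with rfl | ⟨L, ⟨e, x⟩, rfl⟩
  · rw [lp_nil, mul_one] at hne hfin
    have h1 : h ≠ 1 := by rintro rfl; simp at hne
    exact tf h h1 ((Function.Injective.isOfFinOrder_iff (HNNExtension.of_injective (φ := φ))).1 hfin)
  · -- conjugate so that the head is one
    have hc' : (L ++ [(e, x * h)]).IsChain
        (fun a b => a.2 ∈ toSubgroup A B a.1 → a.1 = b.1) := by
      rw [List.isChain_append] at hc ⊢
      refine ⟨hc.1, by simp, ?_⟩
      intro a ha b hb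
      have := hc.2.2 a ha (e, x) (by simp)
      simp only [List.head?_cons, Option.mem_def, Option.some.injEq] at hb
      subst hb
      exact this
    have e1 : lp φ (L ++ [(e, x * h)]) =
        (of h)⁻¹ * (of h * lp φ (L ++ [(e, x)])) * ((of h)⁻¹)⁻¹ := by
      rw [lp_append, lp_append]
      simp [lp, mul_assoc]
    have hfin1 : IsOfFinOrder (lp φ (L ++ [(e, x * h)])) := by
      rw [e1]; exact conj_fin _ _ hfin
    have hne1 : lp φ (L ++ [(e, x * h)]) ≠ 1 := by
      rw [e1]
      intro h'
      exact hne (conj_eq_one_iff.1 h')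
    by_cases hh : ∀ a ∈ (L ++ [(e, x * h)]).getLast?, ∀ b ∈ (L ++ [(e, x * h)]).head?,
        a.2 ∈ toSubgroup A B a.1 → a.1 = b.1
    · exact cyc φ _ (by simp) hc' hh hfin1
    · push Not at hh
      obtain ⟨a, ha, b, hb, hab, hne'⟩ := hh
      have ha' : a = (e, x * h) := by
        simpa [eq_comm] using ha
      subst ha'
      rcases L with _ | ⟨c, L'⟩
      · have hb' : b = (e, x * h) := by
          simpa [eq_comm] using hb
        subst hb'
        exact hne' rfl
      · have hb' : b = c := by
          simpa [eq_comm] using hb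
        subst hb'
        simp only at hab hne'
        have hbe : b.1 = -e := by
          rw [← Int.units_ne_iff_eq_neg]; exact fun h => hne' h.symm
        obtain ⟨k, hk⟩ := slide φ e (x * h) hab
        have hcL : L'.IsChain (fun a b => a.2 ∈ toSubgroup A B a.1 → a.1 = b.1) := by
          rw [List.cons_append, List.isChain_cons] at hc
          exact (List.isChain_append.1 hc.2).1
        obtain ⟨w, hw1, hw2⟩ := rmul φ b.2 k L' hcL
        have e2 : w.prod φ = t ^ (e : ℤ) * lp φ (b :: L' ++ [(e, x * h)]) *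
            (t ^ (e : ℤ))⁻¹ := by
          rw [hw1, List.cons_append, lp_cons, lp_append, lp_cons, lp_nil, mul_one, hk, hbe]
          simp [mul_assoc]
        refine ih w.toList.length ?_ w rfl ?_ ?_
        · rw [hw2, ← hn]; simp
        · rw [e2]
          intro h'
          exact hne1 (conj_eq_one_iff.1 h')
        · rw [e2]
          exact conj_fin _ _ hfin1


theorem hnn_tf {K : Type} [Group K] {A B : Subgroup K} (φ : A ≃* B) (tf : TF K) :
    TF (HNNExtension K A B φ) := by
  intro g hg
  by_contra h1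
  obtain ⟨w, rfl⟩ := hnn_word φ g
  exact main φ (fun k hk hk' => hk (tf k hk')) _ w rfl h1 hg

end Pool.Agent.R702.ISO
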