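import Pool.Agent.R702.ISO.Tf

set_option autoImplicit false

/-!
Project ISO (S14615): the part TOWER.
-/

namespace Pool.Agent.R702.ISO

open Pool.Agent.Y817.ISO
open HNNExtension

/-- generation of an HNN extension -/
theorem hnn_closure {G : Type} [Group G] {A B : Subgroup G} (φ : A ≃* B) (s : Set G)
    (hs : Subgroup.closure s = ⊤) :
    Subgroup.closure ((of : G →* HNNExtension G A B φ) '' s ∪ {t}) = ⊤ := by
  rw [eq_top_iff]
  intro x _
  have hof : ∀ g : G, (of g : HNNExtension G A B φ) ∈ Subgroup.closure (of '' s ∪ {t}) := by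
    intro g
    have h1 : (of g : HNNExtension G A B φ) ∈ (Subgroup.closure s).map of := by
      rw [hs]; exact ⟨g, trivial, rfl⟩
    rw [MonoidHom.map_closure] at h1
    exact Subgroup.closure_mono Set.subset_union_left h1
  have ht : (t : HNNExtension G A B φ) ∈ Subgroup.closure (of '' s ∪ {t}) :=
    Subgroup.subset_closure (Or.inr rfl)
  induction x using HNNExtension.induction_on with
  | of g => exact hof g
  | t => exact ht
  | mul a b ha hb => exact Subgroup.mul_mem _ (ha trivial) (hb trivial)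
  | inv a ha => exact Subgroup.inv_mem _ (ha trivial)

theorem exLift {G H : Type} [Group G] [Group H] {A B : Subgroup G} (φ : A ≃* B) (f : G →* H)
    (x : H) (hx : ∀ a : A, x * f (a : G) = f ((φ a : B) : G) * x) :
    ∃ Φ : HNNExtension G A B φ →* H, (∀ g, Φ (of g) = f g) ∧ Φ t = x :=
  ⟨HNNExtension.lift f x hx, fun g => HNNExtension.lift_of f x hx g, HNNExtension.lift_t f x hx⟩

/-- the group generated by `K`, `z`, `u` -/
theorem stageTwo (K : Type) [Group K] (Q : Subgroup K) :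
    ∃ (G : Type) (_ : Group G) (φ : K →* G) (z u : G), (TF K → TF G) ∧
      (∀ a : ℤ, z ^ a = 1 → a = 0) ∧ (∀ q ∈ Q, Commute z (φ q)) ∧ (∀ k, Commute u (φ k)) ∧
      u⁻¹ * z * u = z ^ 2 ∧ Subgroup.closure (Set.range φ ∪ {z, u}) = ⊤ ∧
      ∀ (H : Type) [Group H] (φ' : K →* H) (z' u' : H), (∀ q ∈ Q, Commute z' (φ' q)) →
        (∀ k, Commute u' (φ' k)) → u'⁻¹ * z' * u' = z' ^ 2 →
        ∃ Φ : G →* H, (∀ k, Φ (φ k) = φ' k) ∧ Φ z = z' ∧ Φ u = u' := by
  obtain ⟨ψ, hψ, hψ1, hψ2⟩ := square K Q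
  let e : ψ.range ≃* (⊤ : Subgroup (CE K Q)) :=
    (MonoidHom.ofInjective hψ).symm.trans Subgroup.topEquiv.symm
  have he : ∀ g : CE K Q, ((e ⟨ψ g, ⟨g, rfl⟩⟩ : (⊤ : Subgroup (CE K Q))) : CE K Q) = g := by
    intro g
    have : (MonoidHom.ofInjective hψ).symm ⟨ψ g, ⟨g, rfl⟩⟩ = g := by
      rw [MulEquiv.symm_apply_eq]
      rfl
    show (((MonoidHom.ofInjective hψ).symm ⟨ψ g, ⟨g, rfl⟩⟩ : CE K Q)) = g
    exact this
  let G := HNNExtension (CE K Q) ψ.range ⊤ e
  have hrel : ∀ g : CE K Q, (t : G) * of (ψ g) = of g * t := by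
    intro g
    have := t_mul_of (φ := e) ⟨ψ g, ⟨g, rfl⟩⟩
    rw [he] at this
    exact this
  refine ⟨G, inferInstance, of.comp of, of t, t, ?_, ?_, ?_, ?_, ?_, ?_, ?_⟩
  · intro h
    exact hnn_tf e (hnn_tf _ h)
  · intro a ha
    rw [← map_zpow] at ha
    have h1 : (t : CE K Q) ^ a = 1 := of_injective e (ha.trans (map_one of).symm)
    obtain ⟨Φ, -, hΦ⟩ := exLift (MulEquiv.refl Q) (1 : K →* Multiplicative ℤ)
      (Multiplicative.ofAdd (1 : ℤ)) (fun a => by simp)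
    have h2 : Φ (t ^ a) = Φ 1 := congrArg Φ h1
    rw [map_zpow, hΦ, map_one Φ, ← ofAdd_zsmul] at h2
    simpa using h2
  · intro q hq
    show of t * of (of q) = of (of q) * of t
    rw [← map_mul, ← map_mul, comm_t hq]
  · intro k
    show (t : G) * of (of k) = of (of k) * t
    have := hrel (of k)
    rwa [hψ1] at this
  · have := hrel t
    rw [hψ2] at this
    calc (t : G)⁻¹ * of t * t = t⁻¹ * (of t * t) := by rw [mul_assoc]
      _ = t⁻¹ * (t * of (t ^ 2)) := by rw [this]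
      _ = of (t ^ 2) := by group
      _ = _ := by rw [map_pow]
  · have h1 := hnn_closure e ((of : K →* CE K Q) '' ⊤ ∪ {t})
      (hnn_closure (MulEquiv.refl Q) ⊤ (by simp))
    rw [eq_top_iff, ← h1, Subgroup.closure_le]
    rintro y (⟨w, (⟨k, -, rfl⟩ | rfl), rfl⟩ | rfl)
    · exact Subgroup.subset_closure (Or.inl ⟨k, rfl⟩)
    · exact Subgroup.subset_closure (Or.inr (Or.inl rfl))
    · exact Subgroup.subset_closure (Or.inr (Or.inr rfl))
  · intro H _ φ' z' u' h1 h2 h3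
    obtain ⟨Φ1, hΦ1, hΦt⟩ := exLift (MulEquiv.refl Q) φ' z' (fun a => h1 a a.2)
    have hΦ : ∀ g : CE K Q, Φ1 (ψ g) = u'⁻¹ * Φ1 g * u' := by
      intro g
      have : Φ1.comp ψ = (MulAut.conj u'⁻¹).toMonoidHom.comp Φ1 := by
        apply HNNExtension.hom_ext
        · ext k
          simp only [MonoidHom.comp_apply, hψ1, MulEquiv.toMonoidHom_eq_coe, MonoidHom.coe_coe,
            MulAut.conj_apply, inv_inv, hΦ1]
          have h4 := h2 k
          rw [Commute, SemiconjBy] at h4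
          rw [mul_assoc, ← h4, inv_mul_cancel_left]
        · simp only [MonoidHom.comp_apply, hψ2, MulEquiv.toMonoidHom_eq_coe, MonoidHom.coe_coe,
            MulAut.conj_apply, inv_inv, map_pow, hΦt]
          exact h3.symm
      have h5 := DFunLike.congr_fun this g
      simpa using h5
    obtain ⟨Φ2, hΦ2, hΦ2t⟩ := exLift e Φ1 u' (by
      rintro ⟨_, ⟨g, rfl⟩⟩
      rw [he]
      show u' * Φ1 (ψ g) = Φ1 g * u'
      rw [hΦ]
      group)
    refine ⟨Φ2, ?_, ?_, hΦ2t⟩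
    · intro k
      exact (hΦ2 _).trans (hΦ1 k)
    · exact (hΦ2 _).trans hΦt

theorem conj_pow_two {G : Type} [Group G] (z u : G) (h : u⁻¹ * z * u = z ^ 2) (m : ℕ) :
    (u ^ m)⁻¹ * z ^ 2 * u ^ m = z ^ (2 ^ (m + 1)) := by
  induction m with
  | zero => simp
  | succ m ih =>
    have h1 : u⁻¹ * z ^ (2 ^ (m + 1)) * u = (u⁻¹ * z * u) ^ (2 ^ (m + 1)) := by
      have := (map_pow (MulAut.conj u⁻¹) z (2 ^ (m + 1)))
      simpa using this
    calc (u ^ (m + 1))⁻¹ * z ^ 2 * u ^ (m + 1) = u⁻¹ * ((u ^ m)⁻¹ * z ^ 2 * u ^ m) * u := by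
          rw [pow_succ]; group
      _ = _ := by rw [ih, h1, h, ← pow_mul]; congr 1; ring

theorem tower (hG : StmGModel) : StmTower := by
  intro K _ Q Rr π x t0 hB
  obtain ⟨G2, _, φ2, z2, u2, tf2, zo2, zq2, uk2, uz2, cl2, up2⟩ := stageTwo K Q
  let S2 : Subgroup G2 := Subgroup.closure {φ2 x * u2, (φ2 t0)⁻¹ * z2 ^ 2 * φ2 t0}
  let M2 : Subgroup G2 := Subgroup.closure (Set.range φ2 ∪ {z2})
  let L2 : Subgroup G2 := Subgroup.closure (((S2 ⊓ M2 : Subgroup G2) : Set G2) ∪ φ2 '' Rr)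
  let G3 := CE G2 S2
  let φ3 : K →* G3 := of.comp φ2
  let T3 : Subgroup G3 := Subgroup.closure
    (Set.range (fun k => (t : G3) * φ3 k * t⁻¹) ∪ {(t : G3) * of z2 * t⁻¹} ∪ φ3 '' Rr)
  let U := CE G3 T3
  let φ : K →* U := of.comp φ3
  have tf3 : TF G3 := hnn_tf _ (tf2 hB.tf)
  have hv : ∀ g ∈ S2, (t : G3) * of g = of g * t := fun g hg => comm_t hg
  have hτ : ∀ g ∈ T3, (t : U) * of g = of g * t := fun g hg => comm_t hg
  refine ⟨U, inferInstance, φ, of (of z2), of (of u2), of t, t, hnn_tf _ tf3, ?_, ?_, ?_, ?_⟩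
  · refine ⟨?_, ?_, ?_, ?_, ?_, ?_, ?_, ?_⟩
    · intro q hq
      exact ((zq2 q hq).map of).map of
    · intro k
      exact ((uk2 k).map of).map of
    · have := congrArg (fun g => (of (of g : G3) : U)) uz2
      simpa using this
    · have h1 := hv _ (Subgroup.subset_closure (Or.inl rfl) : φ2 x * u2 ∈ S2)
      have h2 := congrArg (fun g => (of g : U)) h1
      simp only [map_mul] at h2
      simpa [Commute, SemiconjBy, φ, φ3, mul_assoc] using h2
    · have h1 := hv _ (Subgroup.subset_closure (Or.inr rfl) :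
        (φ2 t0)⁻¹ * z2 ^ 2 * φ2 t0 ∈ S2)
      have h2 := congrArg (fun g => (of g : U)) h1
      simp only [map_mul, map_inv, map_pow] at h2
      simpa only [Commute, SemiconjBy, φ, φ3, MonoidHom.comp_apply] using h2
    · intro k
      have h1 := hτ _ (Subgroup.subset_closure (Or.inl (Or.inl ⟨k, rfl⟩)) :
        (t : G3) * φ3 k * t⁻¹ ∈ T3)
      simp only [map_mul, map_inv] at h1
      exact h1
    · have h1 := hτ _ (Subgroup.subset_closure (Or.inl (Or.inr rfl)) :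
        (t : G3) * of z2 * t⁻¹ ∈ T3)
      simp only [map_mul, map_inv] at h1
      exact h1
    · intro ρ hρ
      exact hτ _ (Subgroup.subset_closure (Or.inr ⟨ρ, hρ, rfl⟩))
  · have h1 := hnn_closure (MulEquiv.refl T3) _ (hnn_closure (MulEquiv.refl S2) _ cl2)
    rw [eq_top_iff, ← h1, Subgroup.closure_le]
    rintro y (⟨w, (⟨w', (⟨k, rfl⟩ | rfl | rfl), rfl⟩ | rfl), rfl⟩ | rfl)
    · exact Subgroup.subset_closure (Or.inl ⟨k, rfl⟩)
    · exact Subgroup.subset_closure (Or.inr (Or.inl rfl))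
    · exact Subgroup.subset_closure (Or.inr (Or.inr (Or.inl rfl)))
    · exact Subgroup.subset_closure (Or.inr (Or.inr (Or.inr (Or.inl rfl))))
    · exact Subgroup.subset_closure (Or.inr (Or.inr (Or.inr (Or.inr rfl))))
  · intro H _ φ' z' u' v' τ' hR
    obtain ⟨Φ2, hΦ2, hΦz, hΦu⟩ := up2 H φ' z' u' hR.zq hR.uk hR.uz
    have hS : ∀ a : S2, v' * Φ2 (a : G2) = Φ2 ((MulEquiv.refl S2 a : S2) : G2) * v' := by
      have : S2 ≤ (Subgroup.centralizer {v'}).comap Φ2 := by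
        rw [Subgroup.closure_le]
        rintro y (rfl | rfl)
        · show Φ2 (φ2 x * u2) ∈ Subgroup.centralizer {v'}
          rw [Subgroup.mem_centralizer_singleton_iff, map_mul, hΦ2, hΦu]
          exact hR.vx.eq.symm
        · show Φ2 ((φ2 t0)⁻¹ * z2 ^ 2 * φ2 t0) ∈ Subgroup.centralizer {v'}
          rw [Subgroup.mem_centralizer_singleton_iff]
          simp only [map_mul, map_inv, map_pow, hΦ2, hΦz]
          exact hR.vt.eq.symm
      intro a
      have h1 := this a.2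
      rw [Subgroup.mem_comap, Subgroup.mem_centralizer_singleton_iff] at h1
      exact h1.symm
    obtain ⟨Φ3, hΦ3, hΦ3t⟩ := exLift (MulEquiv.refl S2) Φ2 v' hS
    have hT : ∀ a : T3, τ' * Φ3 (a : G3) = Φ3 ((MulEquiv.refl T3 a : T3) : G3) * τ' := by
      have : T3 ≤ (Subgroup.centralizer {τ'}).comap Φ3 := by
        rw [Subgroup.closure_le]
        rintro y ((⟨k, rfl⟩ | rfl) | ⟨ρ, hρ, rfl⟩)
        · show Φ3 (t * φ3 k * t⁻¹) ∈ Subgroup.centralizer {τ'}
          rw [Subgroup.mem_centralizer_singleton_iff]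
          have e1 : Φ3 (φ3 k) = φ' k := (hΦ3 _).trans (hΦ2 k)
          simp only [map_mul, map_inv, hΦ3t, e1]
          exact (hR.τk k).eq.symm
        · show Φ3 (t * of z2 * t⁻¹) ∈ Subgroup.centralizer {τ'}
          rw [Subgroup.mem_centralizer_singleton_iff]
          simp only [map_mul, map_inv, hΦ3t, hΦ3, hΦz]
          exact hR.τz.eq.symm
        · show Φ3 (φ3 ρ) ∈ Subgroup.centralizer {τ'}
          rw [Subgroup.mem_centralizer_singleton_iff]
          have e1 : Φ3 (φ3 ρ) = φ' ρ := (hΦ3 _).trans (hΦ2 ρ)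
          rw [e1]
          exact (hR.τr ρ hρ).eq.symm
      intro a
      have h1 := this a.2
      rw [Subgroup.mem_comap, Subgroup.mem_centralizer_singleton_iff] at h1
      exact h1.symm
    obtain ⟨Φ4, hΦ4, hΦ4t⟩ := exLift (MulEquiv.refl T3) Φ3 τ' hT
    refine ⟨Φ4, ?_, ?_, ?_, ?_, hΦ4t⟩
    · intro k
      exact (hΦ4 _).trans ((hΦ3 _).trans (hΦ2 k))
    · exact (hΦ4 _).trans ((hΦ3 _).trans hΦz)
    · exact (hΦ4 _).trans ((hΦ3 _).trans hΦu)
    · exact (hΦ4 _).trans hΦ3t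
  · intro n hn0 hn g hg hg2
    let σ : K := s x t0 n
    let α : Multiplicative ℤ →* G3 := zpowersHom G3 ((φ3 σ)⁻¹ * of z2 * φ3 σ)
    have hα1 : ∀ a : Multiplicative ℤ, α a = (φ3 σ)⁻¹ * of (z2 ^ a.toAdd) * φ3 σ := by
      intro a
      have h1 : α a = ((φ3 σ)⁻¹ * of z2 * φ3 σ) ^ a.toAdd := rfl
      rw [h1]
      have := (map_zpow (MulAut.conj (φ3 σ)⁻¹) (of z2) a.toAdd)
      simpa using this.symm
    have hα2 : ∀ a : Multiplicative ℤ, α a = of ((φ2 σ)⁻¹ * z2 ^ a.toAdd * φ2 σ) := by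
      intro a
      rw [hα1]
      simp [φ3]
    have hαi : Function.Injective α := by
      rw [injective_iff_map_eq_one]
      intro a ha
      rw [hα2] at ha
      have h1 : (φ2 σ)⁻¹ * z2 ^ a.toAdd * φ2 σ = 1 :=
        of_injective (MulEquiv.refl S2) (ha.trans (map_one of).symm)
      have h2 : z2 ^ a.toAdd = 1 := by
        calc z2 ^ a.toAdd = φ2 σ * ((φ2 σ)⁻¹ * z2 ^ a.toAdd * φ2 σ) * (φ2 σ)⁻¹ := by group
          _ = 1 := by rw [h1]; group
      exact zo2 _ h2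
    have hαT : ∀ a : Multiplicative ℤ, α a ∈ T3 ↔
        a ∈ Subgroup.zpowers (Multiplicative.ofAdd g) := by
      intro a
      constructor
      · intro ha
        have h1 : T3 ≤ Subgroup.closure
            ((fun g : G2 => (t * of g * t⁻¹ : CE G2 S2)) '' M2 ∪
              (fun g : G2 => (of g : CE G2 S2)) '' L2) := by
          rw [Subgroup.closure_le]
          rintro y ((⟨k, rfl⟩ | rfl) | ⟨ρ, hρ, rfl⟩)
          · exact Subgroup.subset_closure (Or.inl ⟨φ2 k,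
              Subgroup.subset_closure (Or.inl ⟨k, rfl⟩), rfl⟩)
          · exact Subgroup.subset_closure (Or.inl ⟨z2,
              Subgroup.subset_closure (Or.inr rfl), rfl⟩)
          · exact Subgroup.subset_closure (Or.inr ⟨φ2 ρ,
              Subgroup.subset_closure (Or.inr ⟨ρ, hρ, rfl⟩), rfl⟩)
        have h2 : S2 ⊓ M2 ≤ L2 := fun y hy => Subgroup.subset_closure (Or.inl hy)
        have h3 : L2 ≤ M2 := by
          rw [Subgroup.closure_le]
          rintro y (hy | ⟨ρ, hρ, rfl⟩)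
          · exact hy.2
          · exact Subgroup.subset_closure (Or.inl ⟨ρ, rfl⟩)
        have h4 := h1 ha
        rw [hα2] at h4
        have h5 := lemA G2 S2 M2 L2 h2 h3 _ h4
        obtain ⟨M', _, φ', z', u', zq', uk', uz', hM⟩ := hG K Q Rr π x t0 hB
        obtain ⟨Φ2, hΦ2, hΦz, hΦu⟩ := up2 M' φ' z' u' zq' uk' uz'
        have h6 : Φ2 ((φ2 σ)⁻¹ * z2 ^ a.toAdd * φ2 σ) ∈ L2.map Φ2 := ⟨_, h5, rfl⟩
        have h7 : L2.map Φ2 ≤ Subgroup.closure
            (((Subgroup.closure {φ' x * u', (φ' t0)⁻¹ * z' ^ 2 * φ' t0} ⊓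
              Subgroup.closure (Set.range φ' ∪ {z'}) : Subgroup M') : Set M') ∪ φ' '' Rr) := by
          rw [MonoidHom.map_closure, Subgroup.closure_le]
          rintro _ ⟨y, (⟨hy1, hy2⟩ | ⟨ρ, hρ, rfl⟩), rfl⟩
          · refine Subgroup.subset_closure (Or.inl ⟨?_, ?_⟩)
            · have h8 : Φ2 y ∈ S2.map Φ2 := ⟨y, hy1, rfl⟩
              rw [MonoidHom.map_closure] at h8
              refine Subgroup.closure_mono ?_ h8
              rintro _ ⟨w, (rfl | rfl), rfl⟩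
              · left
                simp [hΦ2, hΦu]
              · right
                simp [hΦ2, hΦz]
            · have h8 : Φ2 y ∈ M2.map Φ2 := ⟨y, hy2, rfl⟩
              rw [MonoidHom.map_closure] at h8
              refine Subgroup.closure_mono ?_ h8
              rintro _ ⟨w, (⟨k, rfl⟩ | rfl), rfl⟩
              · left
                exact ⟨k, (hΦ2 k).symm⟩
              · right
                exact hΦz
          · refine Subgroup.subset_closure (Or.inr ⟨ρ, hρ, (hΦ2 ρ).symm⟩)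
        have h8 := h7 h6
        have h9 : Φ2 ((φ2 σ)⁻¹ * z2 ^ a.toAdd * φ2 σ) =
            ((φ' (s x t0 n))⁻¹ * z' * φ' (s x t0 n)) ^ a.toAdd := by
          have := (map_zpow (MulAut.conj (φ' σ)⁻¹) z' a.toAdd)
          simp only [MulAut.conj_apply, inv_inv] at this
          rw [map_mul, map_mul, map_inv, map_zpow, hΦ2, hΦz]
          exact this
        rw [h9] at h8
        obtain ⟨b, hb⟩ := hM n hn a.toAdd h8 g hg
        refine Subgroup.mem_zpowers_iff.2 ⟨b, ?_⟩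
        rw [← ofAdd_zsmul, smul_eq_mul, mul_comm, ← hb]
        rfl
      · intro ha
        obtain ⟨b, rfl⟩ := Subgroup.mem_zpowers_iff.1 ha
        rw [map_zpow]
        refine Subgroup.zpow_mem _ ?_ _
        obtain ⟨m, ⟨ρ, hρ, hs⟩, hgm⟩ := hg2
        have hm0 := hn m ⟨ρ, hρ, hs⟩
        obtain ⟨m, rfl⟩ := Int.eq_ofNat_of_zero_le hm0
        rw [Int.toNat_natCast] at hgm
        -- the element `w`
        have hw : (φ2 (s x t0 m))⁻¹ * z2 ^ (2 ^ (m + 1)) * φ2 (s x t0 m) =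
            ((φ2 x * u2) ^ m)⁻¹ * ((φ2 t0)⁻¹ * z2 ^ 2 * φ2 t0) * (φ2 x * u2) ^ m := by
          have e1 : (φ2 x * u2) ^ m = u2 ^ m * φ2 x ^ m := by
            rw [(uk2 x).symm.mul_pow, ((uk2 x).symm.pow_pow m m).eq]
          have e2 : φ2 t0 * u2 ^ m = u2 ^ m * φ2 t0 := ((uk2 t0).pow_left m).eq.symm
          have e3 : (φ2 t0)⁻¹ * (u2 ^ m) = (u2 ^ m) * (φ2 t0)⁻¹ := by
            have := ((uk2 t0).pow_left m).inv_right.eq
            exact this.symm
          have e4 : (u2 ^ m)⁻¹ * (φ2 t0)⁻¹ = (φ2 t0)⁻¹ * (u2 ^ m)⁻¹ := by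
            rw [← mul_inv_rev, ← mul_inv_rev, e2]
          have e5 : φ2 x ^ m * z2 ^ (2 ^ (m + 1)) * (φ2 x ^ m)⁻¹ = z2 ^ (2 ^ (m + 1)) := by
            have : Commute (φ2 x ^ m) (z2 ^ (2 ^ (m + 1))) :=
              ((zq2 x hB.x_mem).symm.pow_pow _ _)
            rw [this.eq, mul_inv_cancel_right]
          have e6 := conj_pow_two z2 u2 uz2 m
          have e7 : φ2 (s x t0 m) = (φ2 x ^ m)⁻¹ * φ2 t0 * φ2 x ^ m := by
            simp [s]
          rw [e1, e7]
          calc ((φ2 x ^ m)⁻¹ * φ2 t0 * φ2 x ^ m)⁻¹ * z2 ^ 2 ^ (m + 1) *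
                ((φ2 x ^ m)⁻¹ * φ2 t0 * φ2 x ^ m)
              = (φ2 x ^ m)⁻¹ * (φ2 t0)⁻¹ * (φ2 x ^ m * z2 ^ (2 ^ (m + 1)) * (φ2 x ^ m)⁻¹) *
                φ2 t0 * φ2 x ^ m := by group
            _ = (φ2 x ^ m)⁻¹ * (φ2 t0)⁻¹ * ((u2 ^ m)⁻¹ * z2 ^ 2 * u2 ^ m) * φ2 t0 * φ2 x ^ m := by
                rw [e5, e6]
            _ = (φ2 x ^ m)⁻¹ * ((φ2 t0)⁻¹ * (u2 ^ m)⁻¹) * z2 ^ 2 * (u2 ^ m * φ2 t0) *
                φ2 x ^ m := by simp only [mul_assoc]
            _ = _ := by rw [← e4, ← e2]; simp only [mul_inv_rev, mul_assoc]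
        have hwS : (φ2 (s x t0 m))⁻¹ * z2 ^ (2 ^ (m + 1)) * φ2 (s x t0 m) ∈ S2 := by
          rw [hw]
          have h1 : φ2 x * u2 ∈ S2 := Subgroup.subset_closure (Or.inl rfl)
          have h2 : (φ2 t0)⁻¹ * z2 ^ 2 * φ2 t0 ∈ S2 := Subgroup.subset_closure (Or.inr rfl)
          exact S2.mul_mem (S2.mul_mem (S2.inv_mem (S2.pow_mem h1 m)) h2) (S2.pow_mem h1 m)
        have hwM : (φ2 (s x t0 m))⁻¹ * z2 ^ (2 ^ (m + 1)) * φ2 (s x t0 m) ∈ M2 := by
          have h1 : φ2 (s x t0 m) ∈ M2 := Subgroup.subset_closure (Or.inl ⟨_, rfl⟩)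
          have h2 : z2 ∈ M2 := Subgroup.subset_closure (Or.inr rfl)
          exact M2.mul_mem (M2.mul_mem (M2.inv_mem h1) (M2.pow_mem h2 _)) h1
        have hMT : ∀ y ∈ M2, (t : G3) * of y * t⁻¹ ∈ T3 := by
          have : M2 ≤ T3.comap ((MulAut.conj (t : G3)).toMonoidHom.comp of) := by
            rw [Subgroup.closure_le]
            rintro y (⟨k, rfl⟩ | rfl)
            · show (MulAut.conj (t : G3)) (of (φ2 k)) ∈ T3
              rw [MulAut.conj_apply]
              exact Subgroup.subset_closure (Or.inl (Or.inl ⟨k, rfl⟩))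
            · show (MulAut.conj (t : G3)) (of y) ∈ T3
              rw [MulAut.conj_apply]
              exact Subgroup.subset_closure (Or.inl (Or.inr rfl))
          intro y hy
          have h1 := this hy
          rw [Subgroup.mem_comap] at h1
          simpa using h1
        have hwT : (of ((φ2 (s x t0 m))⁻¹ * z2 ^ (2 ^ (m + 1)) * φ2 (s x t0 m)) : G3) ∈ T3 := by
          have h1 := hMT _ hwM
          rwa [hv _ hwS, mul_inv_cancel_right] at h1
        have hρT : φ3 ρ ∈ T3 := Subgroup.subset_closure (Or.inr ⟨ρ, hρ, rfl⟩)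
        have h1 : α (Multiplicative.ofAdd g) = φ3 ρ *
            of ((φ2 (s x t0 m))⁻¹ * z2 ^ (2 ^ (m + 1)) * φ2 (s x t0 m)) * (φ3 ρ)⁻¹ := by
          rw [hα2]
          have e1 : φ2 σ = φ2 ρ * φ2 (s x t0 m) * (φ2 ρ)⁻¹ := by
            show φ2 (s x t0 n) = _
            rw [hs, map_mul, map_mul, map_inv]
          have e2 : (φ2 ρ)⁻¹ * z2 ^ (2 ^ (m + 1)) * φ2 ρ = z2 ^ (2 ^ (m + 1)) := by
            have : Commute (z2 ^ (2 ^ (m + 1))) (φ2 ρ) :=
              (zq2 ρ (hB.le hρ)).pow_left _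
            rw [mul_assoc, this.eq, inv_mul_cancel_left]
          have e3 : z2 ^ (Multiplicative.toAdd (Multiplicative.ofAdd g)) =
              z2 ^ (2 ^ (m + 1)) := by
            rw [toAdd_ofAdd, hgm]
            norm_cast
          rw [e3, e1]
          have e4 : φ3 ρ = of (φ2 ρ) := rfl
          rw [e4, ← map_inv (of : G2 →* G3), ← map_mul (of : G2 →* G3),
            ← map_mul (of : G2 →* G3)]
          refine congrArg of ?_
          calc (φ2 ρ * φ2 (s x t0 m) * (φ2 ρ)⁻¹)⁻¹ * z2 ^ 2 ^ (m + 1) *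
                (φ2 ρ * φ2 (s x t0 m) * (φ2 ρ)⁻¹)
              = φ2 ρ * (φ2 (s x t0 m))⁻¹ * ((φ2 ρ)⁻¹ * z2 ^ (2 ^ (m + 1)) * φ2 ρ) *
                φ2 (s x t0 m) * (φ2 ρ)⁻¹ := by group
            _ = _ := by rw [e2]; simp only [mul_assoc]
        rw [h1]
        exact T3.mul_mem (T3.mul_mem hρT hwT) (T3.inv_mem hρT)
    obtain ⟨Φ, hΦ1, hΦ2, hΦ3⟩ := subHNN (Multiplicative ℤ) G3 α
      (Subgroup.zpowers (Multiplicative.ofAdd g)) T3 hαi hαT
    refine ⟨(MulAut.conj (φ σ)).toMonoidHom.comp Φ, ?_, ?_, ?_⟩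
    · exact (MulAut.conj (φ σ)).injective.comp hΦ1
    · show (MulAut.conj (φ σ)) (Φ (of (Multiplicative.ofAdd 1))) = _
      rw [hΦ2, hα1, MulAut.conj_apply]
      simp only [toAdd_ofAdd, zpow_one, map_mul, map_inv, φ, MonoidHom.comp_apply]
      group
    · show (MulAut.conj (φ σ)) (Φ t) = _
      rw [hΦ3, MulAut.conj_apply]

end Pool.Agent.R702.ISO
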